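import Mathlib

/-!
# Suffix sets in the free group

`T g` is the set of elements whose reduced word ends with the reduced word of `g` (the half-tree
behind `g` in the Cayley tree for left multiplication).
-/

namespace Pool.Agent.H64.AugIdeal

open FreeGroup

variable {α : Type*} [DecidableEq α]

/-- The elements whose reduced word has that of `g` as a suffix. -/
def T (g : FreeGroup α) : Set (FreeGroup α) := {u | g.toWord <:+ u.toWord}

theorem mem_T {g u : FreeGroup α} : u ∈ T g ↔ g.toWord <:+ u.toWord := Iff.rfl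

theorem self_mem_T (g : FreeGroup α) : g ∈ T g := List.suffix_rfl

theorem T_subset {g v : FreeGroup α} (h : v ∈ T g) : T v ⊆ T g :=
  fun _ hu => List.IsSuffix.trans h hu

theorem norm_le_of_mem_T {g u : FreeGroup α} (h : u ∈ T g) : FreeGroup.norm g ≤ FreeGroup.norm u :=
  List.IsSuffix.length_le h

theorem one_notMem_T {g : FreeGroup α} (h : g ≠ 1) : (1 : FreeGroup α) ∉ T g := by
  intro h1
  have := norm_le_of_mem_T h1
  rw [FreeGroup.norm_one, Nat.le_zero, FreeGroup.norm_eq_zero] at this
  exact h this

/-- Multiplying by a letter on the left adds it to the reduced word or cancels the first letter. -/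
theorem toWord_letter_mul (x : α × Bool) (u : FreeGroup α) :
    (FreeGroup.mk [x] * u).toWord = x :: u.toWord ∨
      u.toWord = (x.1, !x.2) :: (FreeGroup.mk [x] * u).toWord := by
  have h1 : (FreeGroup.mk [x] * u).toWord = reduce (x :: u.toWord) := by
    rw [toWord_mul, toWord_mk, reduce_singleton]
    rfl
  rw [h1, reduce.cons, reduce_toWord]
  rcases hw : u.toWord with _ | ⟨y, tl⟩
  · left
    rfl
  · by_cases hxy : x.1 = y.1 ∧ x.2 = !y.2
    · right
      have : y = (x.1, !x.2) := by
        rcases x with ⟨a, b⟩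
        rcases y with ⟨c, d⟩
        simp only at hxy ⊢
        rw [hxy.1, hxy.2, Bool.not_not]
      simp only [hxy, and_self, if_true]
      rw [this]
      simp [hxy.1, hxy.2]
    · left
      simp only [hxy, if_false]

theorem T_step {g u : FreeGroup α} {x : α × Bool} (hu : u ∈ T g)
    (hv : FreeGroup.mk [x] * u ∉ T g) : u = g := by
  rw [mem_T] at hu hv
  rcases toWord_letter_mul x u with h | h
  · rw [h] at hv
    exact absurd (hu.trans (List.suffix_cons _ _)) hv
  · rw [h, List.suffix_cons_iff] at hu
    rcases hu with hu | hu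
    · rw [← h] at hu
      exact (toWord_injective hu).symm
    · exact absurd hu hv

theorem T_step' {g u : FreeGroup α} {x : α × Bool} (hu : u ∉ T g)
    (hv : FreeGroup.mk [x] * u ∈ T g) : FreeGroup.mk [x] * u = g := by
  apply T_step (x := (x.1, !x.2)) hv
  have : FreeGroup.mk [(x.1, !x.2)] * (FreeGroup.mk [x] * u) = u := by
    rw [← mul_assoc]
    have h : FreeGroup.mk [(x.1, !x.2)] * FreeGroup.mk [x] = 1 := by
      have := FreeGroup.inv_mk (L := [x])
      rw [show FreeGroup.mk [(x.1, !x.2)] = (FreeGroup.mk [x])⁻¹ from by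
        rw [FreeGroup.inv_mk]; rfl]
      exact inv_mul_cancel _
    rw [h, one_mul]
  rw [this]
  exact hu

/-- A short path that crosses the boundary of `T g` passes through `g`. -/
theorem path_cross (g u : FreeGroup α) (L : List (α × Bool)) :
    (u ∈ T g ↔ FreeGroup.mk L * u ∈ T g) ∨ ∃ h', FreeGroup.norm h' ≤ L.length ∧ h' * u = g := by
  induction L with
  | nil =>
    left
    rw [← FreeGroup.one_eq_mk, one_mul]
  | cons x L ih =>
    have hm : FreeGroup.mk (x :: L) * u = FreeGroup.mk [x] * (FreeGroup.mk L * u) := by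
      rw [← mul_assoc, FreeGroup.mul_mk]
      rfl
    rcases ih with ih | ⟨h', h1, h2⟩
    · by_cases hL : FreeGroup.mk L * u ∈ T g
      · by_cases hx : FreeGroup.mk [x] * (FreeGroup.mk L * u) ∈ T g
        · left
          rw [hm, ih]
          exact ⟨fun _ => hx, fun _ => hL⟩
        · right
          exact ⟨FreeGroup.mk L, FreeGroup.norm_mk_le.trans (Nat.le_succ _), T_step hL hx⟩
      · by_cases hx : FreeGroup.mk [x] * (FreeGroup.mk L * u) ∈ T g
        · right
          refine ⟨FreeGroup.mk (x :: L), FreeGroup.norm_mk_le, ?_⟩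
          rw [hm]
          exact T_step' hL hx
        · left
          rw [hm, ih]
          exact ⟨fun h => absurd h hL, fun h => absurd h hx⟩
    · right
      exact ⟨h', h1.trans (Nat.le_succ _), h2⟩

theorem path_cross' (g u h : FreeGroup α) :
    (u ∈ T g ↔ h * u ∈ T g) ∨ ∃ h', FreeGroup.norm h' ≤ FreeGroup.norm h ∧ h' * u = g := by
  have := path_cross g u h.toWord
  rwa [mk_toWord] at this

/-- If two points near `u` are on different sides of the boundary of `T g`, then `g` is near
`u`. -/
theorem cross {g u h₁ h₂ : FreeGroup α} {R : ℕ} (n1 : FreeGroup.norm h₁ ≤ R) (n2 : FreeGroup.norm h₂ ≤ R)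
    (m1 : h₁ * u ∈ T g) (m2 : h₂ * u ∉ T g) : ∃ h', FreeGroup.norm h' ≤ R ∧ h' * u = g := by
  by_cases hu : u ∈ T g
  · rcases path_cross' g u h₂ with h | ⟨h', h3, h4⟩
    · exact absurd (h.1 hu) m2
    · exact ⟨h', h3.trans n2, h4⟩
  · rcases path_cross' g u h₁ with h | ⟨h', h3, h4⟩
    · exact absurd (h.2 m1) hu
    · exact ⟨h', h3.trans n1, h4⟩

/-- Suffixes of every length exist. -/
theorem exists_ancestor (v : FreeGroup α) (m : ℕ) (hm : m ≤ FreeGroup.norm v) :
    ∃ g, FreeGroup.norm g = m ∧ v ∈ T g := by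
  have hred : IsReduced (v.toWord.drop (FreeGroup.norm v - m)) :=
    List.IsChain.suffix (isReduced_toWord (x := v)) (List.drop_suffix _ _)
  have hw : (FreeGroup.mk (v.toWord.drop (FreeGroup.norm v - m))).toWord = v.toWord.drop (FreeGroup.norm v - m) := by
    rw [toWord_mk]
    exact hred.reduce_eq
  refine ⟨FreeGroup.mk (v.toWord.drop (FreeGroup.norm v - m)), ?_, ?_⟩
  · change (FreeGroup.mk (v.toWord.drop (FreeGroup.norm v - m))).toWord.length = m
    rw [hw, List.length_drop]
    change FreeGroup.norm v - (FreeGroup.norm v - m) = m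
    omega
  · rw [mem_T, hw]
    exact List.drop_suffix _ _

/-- A ball around a point deep inside `T g` is contained in `T g`. -/
theorem ball_subset_T {g g' h : FreeGroup α} {ρ : ℕ} (hg : g' ∈ T g)
    (hn : FreeGroup.norm g + ρ < FreeGroup.norm g') (hh : FreeGroup.norm h ≤ ρ) : h * g' ∈ T g := by
  rcases path_cross' g g' h with h1 | ⟨h', h3, h4⟩
  · exact h1.1 hg
  · exfalso
    have : FreeGroup.norm g' ≤ FreeGroup.norm h' + FreeGroup.norm g := by
      have e : g' = h'⁻¹ * g := by rw [← h4]; group
      calc FreeGroup.norm g' = FreeGroup.norm (h'⁻¹ * g) := by rw [← e]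
        _ ≤ FreeGroup.norm (h'⁻¹) + FreeGroup.norm g := FreeGroup.norm_mul_le _ _
        _ = FreeGroup.norm h' + FreeGroup.norm g := by rw [FreeGroup.norm_inv_eq]
    omega

theorem ball_disjoint_T {v g' h : FreeGroup α} {ρ : ℕ}
    (hn : FreeGroup.norm g' + ρ < FreeGroup.norm v) (hh : FreeGroup.norm h ≤ ρ) : h * g' ∉ T v := by
  intro hm
  have h1 := norm_le_of_mem_T hm
  have h2 := FreeGroup.norm_mul_le h g'
  omega

theorem finite_ball [Finite α] (m : ℕ) : {h : FreeGroup α | FreeGroup.norm h ≤ m}.Finite := by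
  have h1 : {l : List (α × Bool) | l.length ≤ m}.Finite := List.finite_length_le _ _
  exact h1.preimage (toWord_injective.injOn)

end Pool.Agent.H64.AugIdeal
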