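import Mathlib
import Pool.Agent.H64.AugIdeal.Tree

/-!
# Finite quotients of the free group, and solutions of finite-range equations on them
-/

namespace Pool.Agent.H64.AugIdeal

open FreeGroup

section residual

variable {α : Type*} [DecidableEq α]

/-- Every nontrivial element is a letter times a shorter element. -/
theorem exists_letter_mul (h : FreeGroup α) (hh : h ≠ 1) :
    ∃ (x : α × Bool) (h₁ : FreeGroup α), h = FreeGroup.mk [x] * h₁ ∧
      FreeGroup.norm h = FreeGroup.norm h₁ + 1 := by
  rcases hw : h.toWord with _ | ⟨x, tl⟩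
  · exact absurd (toWord_eq_nil_iff.1 hw) hh
  · refine ⟨x, FreeGroup.mk tl, ?_, ?_⟩
    · rw [FreeGroup.mul_mk]
      have : h = FreeGroup.mk h.toWord := mk_toWord.symm
      rw [this, hw]
      rfl
    · have hred : IsReduced tl :=
        List.IsChain.suffix (isReduced_toWord (x := h)) (by rw [hw]; exact List.suffix_cons _ _)
      have h2 : (FreeGroup.mk tl).toWord = tl := by
        rw [toWord_mk]
        exact hred.reduce_eq
      change h.toWord.length = (FreeGroup.mk tl).toWord.length + 1
      rw [h2, hw]
      rfl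

omit [DecidableEq α] in
theorem mk_true (a : α) : FreeGroup.mk [(a, true)] = FreeGroup.of a := rfl

omit [DecidableEq α] in
theorem mk_false (a : α) : FreeGroup.mk [(a, false)] = (FreeGroup.of a)⁻¹ := rfl

variable [Finite α]

/-- The ball of radius `m` as a type. -/
abbrev Ball (α : Type*) [DecidableEq α] (m : ℕ) : Type _ :=
  {h : FreeGroup α // FreeGroup.norm h ≤ m}

instance (m : ℕ) : Finite (Ball α m) := (finite_ball m).to_subtype

/-- Left multiplication by a generator, as a partial bijection of the ball. -/
noncomputable def partialShift (m : ℕ) (a : α) :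
    {u : Ball α m // FreeGroup.norm (FreeGroup.of a * u.1) ≤ m} ≃
      {v : Ball α m // FreeGroup.norm ((FreeGroup.of a)⁻¹ * v.1) ≤ m} where
  toFun u := ⟨⟨FreeGroup.of a * u.1.1, u.2⟩, by
    rw [inv_mul_cancel_left]
    exact u.1.2⟩
  invFun v := ⟨⟨(FreeGroup.of a)⁻¹ * v.1.1, v.2⟩, by
    rw [mul_inv_cancel_left]
    exact v.1.2⟩
  left_inv u := by
    apply Subtype.ext
    apply Subtype.ext
    exact inv_mul_cancel_left _ _
  right_inv v := by
    apply Subtype.ext
    apply Subtype.ext
    exact mul_inv_cancel_left _ _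

open Classical in
/-- A permutation of the ball that extends the partial shift. -/
noncomputable def shiftPerm (m : ℕ) (a : α) : Equiv.Perm (Ball α m) :=
  haveI := Fintype.ofFinite (Ball α m)
  (partialShift m a).extendSubtype

theorem shiftPerm_apply (m : ℕ) (a : α) (u : Ball α m)
    (hu : FreeGroup.norm (FreeGroup.of a * u.1) ≤ m) :
    shiftPerm m a u = ⟨FreeGroup.of a * u.1, hu⟩ := by
  classical
  have := Fintype.ofFinite (Ball α m)
  have h := Equiv.extendSubtype_apply_of_mem (partialShift m a) u hu
  unfold shiftPerm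
  refine Eq.trans ?_ (h.trans rfl)
  congr

theorem lift_shiftPerm (m : ℕ) (h : FreeGroup α) (hh : FreeGroup.norm h ≤ m) :
    (FreeGroup.lift (shiftPerm m) h) (⟨1, by rw [FreeGroup.norm_one]; exact Nat.zero_le _⟩ :
      Ball α m) = ⟨h, hh⟩ := by
  induction hk : FreeGroup.norm h generalizing h with
  | zero =>
    have h1 : h = 1 := FreeGroup.norm_eq_zero.1 hk
    subst h1
    rw [_root_.map_one]
    rfl
  | succ k ih =>
    have h0 : h ≠ 1 := by
      rintro rfl
      rw [FreeGroup.norm_one] at hk
      omega
    obtain ⟨x, h₁, e, hn⟩ := exists_letter_mul h h0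
    have hk1 : FreeGroup.norm h₁ = k := by omega
    have ih' := ih h₁ (by omega) hk1
    subst e
    rw [_root_.map_mul, Equiv.Perm.mul_apply, ih']
    rcases x with ⟨a, b⟩
    cases b
    · have e3 : FreeGroup.lift (shiftPerm m) (FreeGroup.mk [(a, false)]) =
          (shiftPerm m a)⁻¹ := by
        rw [mk_false, _root_.map_inv, FreeGroup.lift_apply_of]
      rw [e3, Equiv.Perm.inv_eq_iff_eq]
      have e2 : FreeGroup.norm (FreeGroup.of a * (FreeGroup.mk [(a, false)] * h₁)) ≤ m := by
        rw [mk_false, mul_inv_cancel_left]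
        omega
      have := shiftPerm_apply m a ⟨FreeGroup.mk [(a, false)] * h₁, hh⟩ e2
      refine Eq.trans ?_ this.symm
      apply Subtype.ext
      change h₁ = FreeGroup.of a * (FreeGroup.mk [(a, false)] * h₁)
      rw [mk_false, mul_inv_cancel_left]
    · have e2 : FreeGroup.norm (FreeGroup.of a * h₁) ≤ m := hh
      have e3 : FreeGroup.lift (shiftPerm m) (FreeGroup.mk [(a, true)]) = shiftPerm m a := by
        rw [mk_true, FreeGroup.lift_apply_of]
      rw [e3, shiftPerm_apply m a ⟨h₁, by omega⟩ e2]
      rfl

/-- The free group is residually finite: some homomorphism to a finite group is injective on the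
ball of radius `m`. -/
theorem exists_finite_quotient (m : ℕ) :
    ∃ (π : FreeGroup α →* Equiv.Perm (Ball α m)),
      Set.InjOn π {h | FreeGroup.norm h ≤ m} := by
  refine ⟨FreeGroup.lift (shiftPerm m), ?_⟩
  intro h hh h' hh' e
  have h1 := lift_shiftPerm m h hh
  have h2 := lift_shiftPerm m h' hh'
  rw [e, h2] at h1
  exact (congrArg Subtype.val h1).symm

end residual

end Pool.Agent.H64.AugIdeal
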