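import Mathlib

/-!
# The Banach algebra `ℓ¹(F_n)`, its augmentation ideal, closed right ideals
-/

namespace Pool.Agent.H64.AugIdeal

/-- The Banach space `ℓ¹(F_n)` of absolutely summable complex functions on the free group `F_n`
(Mathlib's `lp` space with exponent `1`). -/
def L1 (n : ℕ) : Type := lp (fun _ : FreeGroup (Fin n) => ℂ) 1

/-- The `ℓ¹`-norm (see `L1.norm_eq`). -/
noncomputable instance (n : ℕ) : NormedAddCommGroup (L1 n) :=
  (inferInstance : NormedAddCommGroup (lp (fun _ : FreeGroup (Fin n) => ℂ) 1))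

/-- The complex vector space structure. -/
noncomputable instance (n : ℕ) : NormedSpace ℂ (L1 n) :=
  (inferInstance : NormedSpace ℂ (lp (fun _ : FreeGroup (Fin n) => ℂ) 1))

instance (n : ℕ) : CompleteSpace (L1 n) :=
  (inferInstance : CompleteSpace (lp (fun _ : FreeGroup (Fin n) => ℂ) 1))

variable {n : ℕ}

/-- The function underlying an element of `ℓ¹(F_n)`. -/
def L1.fn (f : L1 n) : FreeGroup (Fin n) → ℂ := Subtype.val f

/-- Elements of `ℓ¹(F_n)` are functions. -/
instance : CoeFun (L1 n) fun _ => FreeGroup (Fin n) → ℂ := ⟨L1.fn⟩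

theorem L1.ext {f g : L1 n} (h : ∀ u, f u = g u) : f = g :=
  lp.ext (E := fun _ : FreeGroup (Fin n) => ℂ) (funext h)

theorem L1.add_apply (f g : L1 n) (u : FreeGroup (Fin n)) : (f + g) u = f u + g u := rfl

theorem L1.sub_apply (f g : L1 n) (u : FreeGroup (Fin n)) : (f - g) u = f u - g u := rfl

theorem L1.smul_apply (c : ℂ) (f : L1 n) (u : FreeGroup (Fin n)) : (c • f) u = c * f u := rfl

theorem L1.zero_apply (u : FreeGroup (Fin n)) : (0 : L1 n) u = 0 := rfl

theorem L1.summable_norm (f : L1 n) : Summable fun g => ‖f g‖ := by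
  have h := (lp.memℓp (E := fun _ : FreeGroup (Fin n) => ℂ) (p := 1) f).summable (by norm_num)
  simp only [ENNReal.toReal_one, Real.rpow_one] at h
  exact h

theorem L1.summable (f : L1 n) : Summable fun g => f g := (L1.summable_norm f).of_norm

/-- The norm of `ℓ¹(F_n)` is the sum of the absolute values. -/
theorem L1.norm_eq (f : L1 n) : ‖f‖ = ∑' g, ‖f g‖ := by
  have h := lp.norm_rpow_eq_tsum (E := fun _ : FreeGroup (Fin n) => ℂ) (p := 1) (by norm_num) f
  simp only [ENNReal.toReal_one, Real.rpow_one] at h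
  exact h

/-- The element of `ℓ¹(F_n)` given by an absolutely summable function. -/
def L1.mk (a : FreeGroup (Fin n) → ℂ) (h : Summable fun g => ‖a g‖) : L1 n :=
  ⟨a, memℓp_gen (E := fun _ : FreeGroup (Fin n) => ℂ) (p := 1)
    (by simpa only [ENNReal.toReal_one, Real.rpow_one] using h)⟩

theorem L1.mk_apply (a : FreeGroup (Fin n) → ℂ) (h : Summable fun g => ‖a g‖)
    (u : FreeGroup (Fin n)) : L1.mk a h u = a u := rfl

/-- The change of variables `(u, v) ↦ (v, v⁻¹ u)`. -/
def shear (n : ℕ) : FreeGroup (Fin n) × FreeGroup (Fin n) ≃ FreeGroup (Fin n) × FreeGroup (Fin n)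
    where
  toFun p := (p.2, p.2⁻¹ * p.1)
  invFun p := (p.1 * p.2, p.1)
  left_inv _ := Prod.ext (mul_inv_cancel_left _ _) rfl
  right_inv _ := Prod.ext rfl (inv_mul_cancel_left _ _)

theorem summable_shear {a b : FreeGroup (Fin n) → ℂ} (ha : Summable fun g => ‖a g‖)
    (hb : Summable fun g => ‖b g‖) :
    Summable fun p : FreeGroup (Fin n) × FreeGroup (Fin n) => ‖a p.2 * b (p.2⁻¹ * p.1)‖ := by
  have h1 : Summable fun p : FreeGroup (Fin n) × FreeGroup (Fin n) => ‖a p.1 * b p.2‖ :=
    ha.mul_norm hb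
  have h2 := (shear n).summable_iff.2 h1
  refine h2.congr fun p => ?_
  rfl

theorem summable_conv {a b : FreeGroup (Fin n) → ℂ} (ha : Summable fun g => ‖a g‖)
    (hb : Summable fun g => ‖b g‖) : Summable fun u => ‖∑' v, a v * b (v⁻¹ * u)‖ := by
  have h := summable_shear ha hb
  refine Summable.of_nonneg_of_le (fun _ => norm_nonneg _) (fun u => ?_) h.prod
  exact norm_tsum_le_tsum_norm (h.prod_factor u)

/-- The convolution product of `ℓ¹(F_n)`: `(f * g)(u) = ∑_v f(v) g(v⁻¹ u)`. -/
noncomputable def conv (f g : L1 n) : L1 n :=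
  L1.mk (fun u => ∑' v, f v * g (v⁻¹ * u)) (summable_conv f.summable_norm g.summable_norm)

theorem conv_apply (f g : L1 n) (u : FreeGroup (Fin n)) :
    conv f g u = ∑' v, f v * g (v⁻¹ * u) := rfl

/-- The augmentation ideal `I_0(F_n)`: the functions in `ℓ¹(F_n)` with sum zero. -/
noncomputable def I0 (n : ℕ) : Submodule ℂ (L1 n) where
  carrier := {f | ∑' g, f g = 0}
  add_mem' {f g} hf hg := by
    change ∑' u, (f + g) u = 0
    simp only [L1.add_apply]
    rw [(L1.summable f).tsum_add (L1.summable g)]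
    change ∑' u, f u = 0 at hf
    change ∑' u, g u = 0 at hg
    rw [hf, hg, add_zero]
  zero_mem' := by
    change ∑' u, (0 : L1 n) u = 0
    simp only [L1.zero_apply, tsum_zero]
  smul_mem' c f hf := by
    change ∑' u, (c • f) u = 0
    change ∑' u, f u = 0 at hf
    simp only [L1.smul_apply]
    rw [tsum_mul_left, hf, mul_zero]

theorem mem_I0 {f : L1 n} : f ∈ I0 n ↔ ∑' g, f g = 0 := Iff.rfl

/-- `J` is a closed right ideal of `I_0(F_n)`. -/
structure IsClosedRightIdeal (J : Submodule ℂ (L1 n)) : Prop where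
  le : J ≤ I0 n
  isClosed : IsClosed (J : Set (L1 n))
  conv_mem : ∀ f ∈ J, ∀ g ∈ I0 n, conv f g ∈ J

/-- The closed right ideal of `I_0(F_n)` generated by `x_1, …, x_k`: the intersection of all closed
right ideals of `I_0(F_n)` that contain all `x_i`. -/
noncomputable def generated {k : ℕ} (x : Fin k → L1 n) : Submodule ℂ (L1 n) :=
  sInf {J | IsClosedRightIdeal J ∧ ∀ i, x i ∈ J}

end Pool.Agent.H64.AugIdeal
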