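import Mathlib
import Pool.Agent.H64.AugIdeal.Defs

/-!
# Closed right ideals defined by bounded functions
-/

namespace Pool.Agent.H64.AugIdeal

open Filter Topology

variable {n k : ℕ}

theorem summable_mul_bounded (f : L1 n) {b : FreeGroup (Fin n) → ℂ} {C : ℝ}
    (hb : ∀ g, ‖b g‖ ≤ C) : Summable fun g => ‖f g * b g‖ := by
  refine Summable.of_nonneg_of_le (fun _ => norm_nonneg _) (fun g => ?_)
    ((L1.summable_norm f).mul_right C)
  rw [norm_mul]
  exact mul_le_mul_of_nonneg_left (hb g) (norm_nonneg _)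

/-- The bounded functional on `ℓ¹` given by a bounded function. -/
noncomputable def pairing (b : FreeGroup (Fin n) → ℂ) (C : ℝ) (hb : ∀ g, ‖b g‖ ≤ C) :
    L1 n →L[ℂ] ℂ :=
  LinearMap.mkContinuous
    { toFun := fun f => ∑' g, f g * b g
      map_add' := by
        intro f g
        simp only [L1.add_apply, add_mul]
        exact (summable_mul_bounded f hb).of_norm.tsum_add (summable_mul_bounded g hb).of_norm
      map_smul' := by
        intro c f
        simp only [L1.smul_apply, smul_eq_mul, RingHom.id_apply, mul_assoc]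
        exact tsum_mul_left } C (by
    intro f
    change ‖∑' g, f g * b g‖ ≤ C * ‖f‖
    refine (norm_tsum_le_tsum_norm (summable_mul_bounded f hb)).trans ?_
    rw [L1.norm_eq, ← tsum_mul_left]
    refine (summable_mul_bounded f hb).tsum_le_tsum (fun g => ?_)
      ((L1.summable_norm f).mul_left C)
    rw [norm_mul, mul_comm]
    exact mul_le_mul_of_nonneg_right (hb g) (norm_nonneg _))

theorem pairing_apply (b : FreeGroup (Fin n) → ℂ) (C : ℝ) (hb : ∀ g, ‖b g‖ ≤ C) (f : L1 n) :
    pairing b C hb f = ∑' g, f g * b g := rfl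

/-- If all right translates of `φ` annihilate `a`, they annihilate the convolution `a * b`. -/
theorem conv_annih_fun {φ : FreeGroup (Fin n) → ℂ} {C : ℝ} (hφ : ∀ g, ‖φ g‖ ≤ C)
    {a b : FreeGroup (Fin n) → ℂ} (ha : Summable fun g => ‖a g‖) (hb : Summable fun g => ‖b g‖)
    (hf : ∀ w, ∑' u, a u * φ (u * w) = 0) (w : FreeGroup (Fin n)) :
    ∑' u, (∑' v, a v * b (v⁻¹ * u)) * φ (u * w) = 0 := by
  -- the double sum
  have hF : Summable fun p : FreeGroup (Fin n) × FreeGroup (Fin n) =>
      a p.1 * b p.2 * φ (p.1 * p.2 * w) := by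
    have h1 : Summable fun p : FreeGroup (Fin n) × FreeGroup (Fin n) => ‖a p.1 * b p.2‖ * C :=
      (ha.mul_norm hb).mul_right C
    refine Summable.of_norm_bounded h1 (fun p => ?_)
    rw [norm_mul]
    exact mul_le_mul_of_nonneg_left (hφ _) (norm_nonneg _)
  have hkey : ∀ p : FreeGroup (Fin n) × FreeGroup (Fin n),
      ((fun p : FreeGroup (Fin n) × FreeGroup (Fin n) =>
        a p.1 * b p.2 * φ (p.1 * p.2 * w)) ∘ (shear n)) p =
      a p.2 * b (p.2⁻¹ * p.1) * φ (p.1 * w) := by
    intro p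
    change a p.2 * b (p.2⁻¹ * p.1) * φ (p.2 * (p.2⁻¹ * p.1) * w) = _
    rw [mul_inv_cancel_left]
  have hF' : Summable fun p : FreeGroup (Fin n) × FreeGroup (Fin n) =>
      a p.2 * b (p.2⁻¹ * p.1) * φ (p.1 * w) :=
    ((shear n).summable_iff.2 hF).congr fun p => hkey p
  have h1 : ∑' u, (∑' v, a v * b (v⁻¹ * u)) * φ (u * w) =
      ∑' p : FreeGroup (Fin n) × FreeGroup (Fin n), a p.2 * b (p.2⁻¹ * p.1) * φ (p.1 * w) := by
    rw [hF'.tsum_prod]
    refine tsum_congr fun u => ?_
    exact tsum_mul_right.symm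
  have h2 : ∑' p : FreeGroup (Fin n) × FreeGroup (Fin n),
      a p.2 * b (p.2⁻¹ * p.1) * φ (p.1 * w) =
      ∑' p : FreeGroup (Fin n) × FreeGroup (Fin n), a p.1 * b p.2 * φ (p.1 * p.2 * w) := by
    rw [← (shear n).tsum_eq (fun p : FreeGroup (Fin n) × FreeGroup (Fin n) =>
      a p.1 * b p.2 * φ (p.1 * p.2 * w))]
    exact tsum_congr fun p => (hkey p).symm
  have h3 : ∑' p : FreeGroup (Fin n) × FreeGroup (Fin n), a p.1 * b p.2 * φ (p.1 * p.2 * w) =
      ∑' p : FreeGroup (Fin n) × FreeGroup (Fin n), a p.2 * b p.1 * φ (p.2 * p.1 * w) :=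
    ((Equiv.prodComm _ _).tsum_eq (fun p : FreeGroup (Fin n) × FreeGroup (Fin n) =>
      a p.1 * b p.2 * φ (p.1 * p.2 * w))).symm
  have hF2 : Summable fun p : FreeGroup (Fin n) × FreeGroup (Fin n) =>
      a p.2 * b p.1 * φ (p.2 * p.1 * w) := (Equiv.prodComm _ _).summable_iff.2 hF
  rw [h1, h2, h3, hF2.tsum_prod]
  have h4 : ∀ t, ∑' v, a v * b t * φ (v * t * w) = 0 := by
    intro t
    have h5 : ∀ v, a v * b t * φ (v * t * w) = b t * (a v * φ (v * (t * w))) := by
      intro v
      rw [mul_assoc v t w]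
      ring
    simp only [h5]
    rw [tsum_mul_left, hf, mul_zero]
  simp only [h4, tsum_zero]

/-- If all right translates of `φ` annihilate `f`, they annihilate `f * g`. -/
theorem conv_annih {φ : FreeGroup (Fin n) → ℂ} {C : ℝ} (hφ : ∀ g, ‖φ g‖ ≤ C) (f g : L1 n)
    (hf : ∀ w, ∑' u, f u * φ (u * w) = 0) (w : FreeGroup (Fin n)) :
    ∑' u, conv f g u * φ (u * w) = 0 :=
  conv_annih_fun hφ (L1.summable_norm f) (L1.summable_norm g) hf w

/-- `I_0` is a two-sided ideal: here, stability under right multiplication. -/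
theorem conv_mem_I0 {f : L1 n} (hf : f ∈ I0 n) (g : L1 n) : conv f g ∈ I0 n := by
  rw [mem_I0] at hf ⊢
  have h := conv_annih (φ := fun _ => 1) (C := 1) (fun _ => by simp) f g
    (fun w => by simpa using hf) 1
  simpa using h

/-- The elements of the augmentation ideal annihilated by all right translates of `φ`. -/
noncomputable def annih (φ : FreeGroup (Fin n) → ℂ) {C : ℝ} (hφ : ∀ g, ‖φ g‖ ≤ C) :
    Submodule ℂ (L1 n) :=
  I0 n ⊓ ⨅ w : FreeGroup (Fin n),
    LinearMap.ker (pairing (fun u => φ (u * w)) C (fun _ => hφ _)).toLinearMap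

theorem mem_annih {φ : FreeGroup (Fin n) → ℂ} {C : ℝ} {hφ : ∀ g, ‖φ g‖ ≤ C} {f : L1 n} :
    f ∈ annih φ hφ ↔ f ∈ I0 n ∧ ∀ w, ∑' u, f u * φ (u * w) = 0 := by
  unfold annih
  rw [Submodule.mem_inf, Submodule.mem_iInf]
  rfl

theorem I0_eq_ker : I0 n =
    LinearMap.ker (pairing (n := n) (fun _ => 1) 1 (fun _ => by simp)).toLinearMap := by
  ext f
  rw [LinearMap.mem_ker]
  change ∑' u, f u = 0 ↔ ∑' u, f u * 1 = 0
  simp

theorem isClosed_I0 : IsClosed (I0 n : Set (L1 n)) := by
  rw [I0_eq_ker]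
  exact (pairing (n := n) (fun _ => 1) 1 (fun _ => by simp)).isClosed_ker

theorem isClosedRightIdeal_annih (φ : FreeGroup (Fin n) → ℂ) {C : ℝ} (hφ : ∀ g, ‖φ g‖ ≤ C) :
    IsClosedRightIdeal (annih φ hφ) where
  le := inf_le_left
  isClosed := by
    unfold annih
    rw [Submodule.coe_inf, Submodule.coe_iInf]
    exact isClosed_I0.inter (isClosed_iInter fun w =>
      (pairing (fun u => φ (u * w)) C (fun _ => hφ _)).isClosed_ker)
  conv_mem f hf g _ := by
    rw [mem_annih] at hf ⊢
    exact ⟨conv_mem_I0 hf.1 g, conv_annih hφ f g hf.2⟩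

/-- The augmentation ideal is a closed right ideal of itself. -/
theorem isClosedRightIdeal_I0 : IsClosedRightIdeal (I0 n) where
  le := le_rfl
  isClosed := isClosed_I0
  conv_mem _ hf g _ := conv_mem_I0 hf g

/-- Check: the closed right ideal generated by elements of `I_0(F_n)` is a closed right ideal of
`I_0(F_n)` that contains them, and it is the smallest one. -/
theorem generated_spec {x : Fin k → L1 n} (hx : ∀ i, x i ∈ I0 n) :
    IsClosedRightIdeal (generated x) ∧ (∀ i, x i ∈ generated x) ∧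
      ∀ J, IsClosedRightIdeal J → (∀ i, x i ∈ J) → generated x ≤ J := by
  refine ⟨⟨?_, ?_, ?_⟩, ?_, ?_⟩
  · exact sInf_le ⟨isClosedRightIdeal_I0, hx⟩
  · unfold generated
    rw [Submodule.coe_sInf]
    exact isClosed_biInter fun J hJ => hJ.1.isClosed
  · intro f hf g hg
    unfold generated at *
    rw [Submodule.mem_sInf] at *
    intro J hJ
    exact hJ.1.conv_mem f (hf J hJ) g hg
  · intro i
    unfold generated
    rw [Submodule.mem_sInf]
    exact fun J hJ => hJ.2 i
  · intro J hJ hxJ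
    exact sInf_le ⟨hJ, hxJ⟩

open Classical in
/-- The point mass at `v`. -/
noncomputable def pt (v : FreeGroup (Fin n)) : L1 n :=
  L1.mk (fun u => if u = v then 1 else 0) (by
    refine (hasSum_single v ?_).summable
    intro u hu
    rw [if_neg hu, norm_zero])

open Classical in
theorem pt_apply (v u : FreeGroup (Fin n)) : pt v u = if u = v then 1 else 0 := rfl

theorem hasSum_pt (v : FreeGroup (Fin n)) (b : FreeGroup (Fin n) → ℂ) :
    HasSum (fun u => pt v u * b u) (b v) := by
  classical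
  have h := hasSum_single (f := fun u => pt v u * b u) v (by
    intro u hu
    rw [pt_apply, if_neg hu, zero_mul])
  simpa [pt_apply] using h

theorem tsum_pt_sub (g h : FreeGroup (Fin n)) (b : FreeGroup (Fin n) → ℂ) :
    ∑' u, (pt g - pt h) u * b u = b g - b h := by
  have h3 := (hasSum_pt g b).sub (hasSum_pt h b)
  rw [← h3.tsum_eq]
  refine tsum_congr fun u => ?_
  rw [L1.sub_apply, sub_mul]

theorem pt_sub_mem (g h : FreeGroup (Fin n)) : pt g - pt h ∈ I0 n := by
  rw [mem_I0]
  have := tsum_pt_sub g h fun _ => 1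
  simpa using this

/-- A nonconstant bounded function gives a proper closed right ideal. -/
theorem annih_ne {φ : FreeGroup (Fin n) → ℂ} {C : ℝ} (hφ : ∀ g, ‖φ g‖ ≤ C)
    {g h : FreeGroup (Fin n)} (hgh : φ g ≠ φ h) : annih φ hφ ≠ I0 n := by
  intro heq
  have hmem := pt_sub_mem g h
  rw [← heq, mem_annih] at hmem
  have h1 := hmem.2 1
  simp only [mul_one] at h1
  rw [tsum_pt_sub] at h1
  exact hgh (sub_eq_zero.1 h1)

end Pool.Agent.H64.AugIdeal
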