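import Mathlib
import Pool.Agent.H64.AugIdeal.Annih

/-!
# Right convolution operators on `ℓ²(F_n)`
-/

namespace Pool.Agent.H64.AugIdeal

open Filter Topology

variable {n : ℕ}

/-- `ℓ²(F_n)`. -/
noncomputable abbrev H2 (n : ℕ) := lp (fun _ : FreeGroup (Fin n) => ℂ) 2

theorem H2.summable_sq (f : H2 n) : Summable fun p => ‖f p‖ ^ 2 := by
  have h := (lp.memℓp f).summable (by norm_num)
  simpa using h

theorem H2.norm_sq (f : H2 n) : ‖f‖ ^ 2 = ∑' p, ‖f p‖ ^ 2 := by
  have h := lp.norm_rpow_eq_tsum (p := 2) (by norm_num) f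
  simpa using h

theorem H2.norm_apply_le (f : H2 n) (g : FreeGroup (Fin n)) : ‖f g‖ ≤ ‖f‖ :=
  lp.norm_apply_le_norm (by norm_num) f g

/-- The element of `H2` given by a square-summable function. -/
noncomputable def mkH (f : FreeGroup (Fin n) → ℂ) (hf : Summable fun p => ‖f p‖ ^ 2) : H2 n :=
  ⟨f, by
    apply memℓp_gen
    simpa using hf⟩

@[simp] theorem mkH_apply (f : FreeGroup (Fin n) → ℂ)
    (hf : Summable fun p => ‖f p‖ ^ 2) (p) : mkH f hf p = f p := rfl

/-- Composition with a bijection of the group, as an operator on `ℓ²`. -/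
noncomputable def compE (e : FreeGroup (Fin n) ≃ FreeGroup (Fin n)) : H2 n →L[ℂ] H2 n :=
  LinearMap.mkContinuous
    { toFun := fun f => mkH (fun u => f (e u)) ((e.summable_iff (f := fun u => ‖f u‖ ^ 2)).2
        (H2.summable_sq f))
      map_add' := fun f g => rfl
      map_smul' := fun c f => rfl } 1 (by
    intro f
    rw [one_mul]
    have h : ‖mkH (fun u => f (e u)) ((e.summable_iff (f := fun u => ‖f u‖ ^ 2)).2
        (H2.summable_sq f))‖ ^ 2 = ‖f‖ ^ 2 := by
      rw [H2.norm_sq, H2.norm_sq]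
      exact e.tsum_eq (fun u => ‖f u‖ ^ 2)
    exact ((pow_le_pow_iff_left₀ (norm_nonneg _) (norm_nonneg _) two_ne_zero).1 h.le))

theorem compE_apply (e : FreeGroup (Fin n) ≃ FreeGroup (Fin n)) (f : H2 n)
    (u : FreeGroup (Fin n)) : compE e f u = f (e u) := rfl

theorem norm_compE_le (e : FreeGroup (Fin n) ≃ FreeGroup (Fin n)) : ‖compE e‖ ≤ 1 :=
  LinearMap.mkContinuous_norm_le _ zero_le_one _

/-- Right translation `f ↦ f(· h⁻¹)`. -/
noncomputable def rho (h : FreeGroup (Fin n)) : H2 n →L[ℂ] H2 n := compE (Equiv.mulRight h⁻¹)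

theorem rho_apply (h : FreeGroup (Fin n)) (f : H2 n) (u : FreeGroup (Fin n)) :
    rho h f u = f (u * h⁻¹) := rfl

/-- Left translation `f ↦ f(h⁻¹ ·)`. -/
noncomputable def lam (h : FreeGroup (Fin n)) : H2 n →L[ℂ] H2 n := compE (Equiv.mulLeft h⁻¹)

theorem lam_apply (h : FreeGroup (Fin n)) (f : H2 n) (u : FreeGroup (Fin n)) :
    lam h f u = f (h⁻¹ * u) := rfl

theorem summable_rho (b : L1 n) : Summable fun h => b h • rho (n := n) h := by
  refine Summable.of_norm_bounded (L1.summable_norm b) fun h => ?_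
  rw [norm_smul]
  exact mul_le_of_le_one_right (norm_nonneg _) (norm_compE_le _)

/-- Right convolution `f ↦ f * b` on `ℓ²`. -/
noncomputable def R (b : L1 n) : H2 n →L[ℂ] H2 n := ∑' h, b h • rho h

theorem hasSum_R_apply (b : L1 n) (f : H2 n) (u : FreeGroup (Fin n)) :
    HasSum (fun h => b h * f (u * h⁻¹)) (R b f u) := by
  have h1 : HasSum (fun h => b h • rho (n := n) h) (R b) := (summable_rho b).hasSum
  have h2 := h1.mapL (ContinuousLinearMap.apply ℂ (H2 n) f)
  have h3 := h2.mapL (lp.evalCLM ℂ (fun _ : FreeGroup (Fin n) => ℂ) 2 u)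
  exact h3

theorem R_apply (b : L1 n) (f : H2 n) (u : FreeGroup (Fin n)) :
    R b f u = ∑' h, b h * f (u * h⁻¹) := (hasSum_R_apply b f u).tsum_eq.symm

theorem R_add (b c : L1 n) : R (b + c) = R b + R c := by
  unfold R
  rw [← (summable_rho b).tsum_add (summable_rho c)]
  refine tsum_congr fun h => ?_
  rw [L1.add_apply, add_smul]

theorem R_sub (b c : L1 n) : R (b - c) = R b - R c := by
  unfold R
  rw [← (summable_rho b).tsum_sub (summable_rho c)]
  refine tsum_congr fun h => ?_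
  rw [L1.sub_apply, sub_smul]

theorem R_pt (g : FreeGroup (Fin n)) : R (pt g) = rho g := by
  ext f u
  have h := hasSum_R_apply (pt g) f u
  have h2 := hasSum_pt g fun h => f (u * h⁻¹)
  exact h.unique h2

theorem R_lam (b : L1 n) (g : FreeGroup (Fin n)) (f : H2 n) : R b (lam g f) = lam g (R b f) := by
  ext u
  rw [R_apply, lam_apply, R_apply]
  refine tsum_congr fun h => ?_
  rw [lam_apply, mul_assoc]

/-- Fubini for a convolution paired with a bounded function. -/
theorem tsum_conv_mul {φ : FreeGroup (Fin n) → ℂ} {C : ℝ} (hφ : ∀ g, ‖φ g‖ ≤ C)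
    {a b : FreeGroup (Fin n) → ℂ} (ha : Summable fun g => ‖a g‖) (hb : Summable fun g => ‖b g‖) :
    ∑' u, (∑' v, a v * b (v⁻¹ * u)) * φ u = ∑' t, b t * ∑' v, a v * φ (v * t) := by
  have hF : Summable fun p : FreeGroup (Fin n) × FreeGroup (Fin n) =>
      a p.1 * b p.2 * φ (p.1 * p.2) := by
    have h1 : Summable fun p : FreeGroup (Fin n) × FreeGroup (Fin n) => ‖a p.1 * b p.2‖ * C :=
      (ha.mul_norm hb).mul_right C
    refine Summable.of_norm_bounded h1 (fun p => ?_)
    rw [norm_mul]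
    exact mul_le_mul_of_nonneg_left (hφ _) (norm_nonneg _)
  have hkey : ∀ p : FreeGroup (Fin n) × FreeGroup (Fin n),
      ((fun p : FreeGroup (Fin n) × FreeGroup (Fin n) =>
        a p.1 * b p.2 * φ (p.1 * p.2)) ∘ (shear n)) p =
      a p.2 * b (p.2⁻¹ * p.1) * φ p.1 := by
    intro p
    change a p.2 * b (p.2⁻¹ * p.1) * φ (p.2 * (p.2⁻¹ * p.1)) = _
    rw [mul_inv_cancel_left]
  have hF' : Summable fun p : FreeGroup (Fin n) × FreeGroup (Fin n) =>
      a p.2 * b (p.2⁻¹ * p.1) * φ p.1 :=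
    ((shear n).summable_iff.2 hF).congr fun p => hkey p
  have h1 : ∑' u, (∑' v, a v * b (v⁻¹ * u)) * φ u =
      ∑' p : FreeGroup (Fin n) × FreeGroup (Fin n), a p.2 * b (p.2⁻¹ * p.1) * φ p.1 := by
    rw [hF'.tsum_prod]
    refine tsum_congr fun u => ?_
    exact tsum_mul_right.symm
  have h2 : ∑' p : FreeGroup (Fin n) × FreeGroup (Fin n),
      a p.2 * b (p.2⁻¹ * p.1) * φ p.1 =
      ∑' p : FreeGroup (Fin n) × FreeGroup (Fin n), a p.1 * b p.2 * φ (p.1 * p.2) := by
    rw [← (shear n).tsum_eq (fun p : FreeGroup (Fin n) × FreeGroup (Fin n) =>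
      a p.1 * b p.2 * φ (p.1 * p.2))]
    exact tsum_congr fun p => (hkey p).symm
  have h3 : ∑' p : FreeGroup (Fin n) × FreeGroup (Fin n), a p.1 * b p.2 * φ (p.1 * p.2) =
      ∑' p : FreeGroup (Fin n) × FreeGroup (Fin n), a p.2 * b p.1 * φ (p.2 * p.1) :=
    ((Equiv.prodComm _ _).tsum_eq (fun p : FreeGroup (Fin n) × FreeGroup (Fin n) =>
      a p.1 * b p.2 * φ (p.1 * p.2))).symm
  have hF2 : Summable fun p : FreeGroup (Fin n) × FreeGroup (Fin n) =>
      a p.2 * b p.1 * φ (p.2 * p.1) := (Equiv.prodComm _ _).summable_iff.2 hF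
  rw [h1, h2, h3, hF2.tsum_prod]
  refine tsum_congr fun t => ?_
  rw [← tsum_mul_left]
  refine tsum_congr fun v => ?_
  ring

/-- `f * (x * y) = (f * x) * y`. -/
theorem R_conv (x y : L1 n) (f : H2 n) : R (conv x y) f = R y (R x f) := by
  ext u
  rw [R_apply, R_apply]
  have h := tsum_conv_mul (φ := fun w => f (u * w⁻¹)) (C := ‖f‖)
    (fun g => H2.norm_apply_le f _) (L1.summable_norm x) (L1.summable_norm y)
  refine h.trans (tsum_congr fun t => ?_)
  rw [R_apply]
  congr 1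
  refine tsum_congr fun v => ?_
  rw [mul_inv_rev, mul_assoc]

end Pool.Agent.H64.AugIdeal
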