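import Mathlib

/-!
# The convex function `t² / (λ + t)`

It interpolates between `t²/λ` (for large `λ`) and `t` (for small `λ`).
-/

namespace Pool.Agent.H64.AugIdeal

/-- `t² / (l + t)`. -/
noncomputable def phi (l t : ℝ) : ℝ := t ^ 2 / (l + t)

variable {l : ℝ}

theorem phi_nonneg (hl : 0 < l) {t : ℝ} (ht : 0 ≤ t) : 0 ≤ phi l t := by
  unfold phi
  positivity

theorem phi_zero : phi l 0 = 0 := by
  unfold phi
  simp

theorem phi_le_sq (hl : 0 < l) {t : ℝ} (ht : 0 ≤ t) : phi l t ≤ t ^ 2 / l := by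
  unfold phi
  gcongr
  linarith

/-- The tangent line inequality. -/
theorem phi_tangent (hl : 0 < l) {s t : ℝ} (hs : 0 ≤ s) (ht : 0 ≤ t) :
    phi l s + (1 - l ^ 2 / (l + s) ^ 2) * (t - s) ≤ phi l t := by
  have h1 : 0 < l + s := by linarith
  have h2 : 0 < l + t := by linarith
  have h : phi l t - (phi l s + (1 - l ^ 2 / (l + s) ^ 2) * (t - s)) =
      l ^ 2 * (t - s) ^ 2 / ((l + t) * (l + s) ^ 2) := by
    unfold phi
    field_simp
    ring
  have h3 : 0 ≤ l ^ 2 * (t - s) ^ 2 / ((l + t) * (l + s) ^ 2) := by positivity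
  linarith

theorem phi_slope_nonneg (hl : 0 < l) {s : ℝ} (hs : 0 ≤ s) : 0 ≤ 1 - l ^ 2 / (l + s) ^ 2 := by
  rw [sub_nonneg, div_le_one (by positivity)]
  gcongr
  linarith

theorem phi_mono (hl : 0 < l) {s t : ℝ} (hs : 0 ≤ s) (hst : s ≤ t) : phi l s ≤ phi l t := by
  have h := phi_tangent hl hs (hs.trans hst)
  have h2 := mul_nonneg (phi_slope_nonneg hl hs) (sub_nonneg.2 hst)
  linarith

theorem phi_le_slope_mul (hl : 0 < l) {s : ℝ} (hs : 0 ≤ s) :
    phi l s ≤ (1 - l ^ 2 / (l + s) ^ 2) * s := by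
  have h := phi_tangent hl hs le_rfl
  rw [phi_zero] at h
  linarith

/-- Jensen's inequality for (infinite) sub-convex combinations. -/
theorem phi_tsum_le (hl : 0 < l) {ι : Type*} {c t : ι → ℝ} (hc : ∀ i, 0 ≤ c i) (ht : ∀ i, 0 ≤ t i)
    (hcs : Summable c) (hc1 : ∑' i, c i ≤ 1) (hct : Summable fun i => c i * t i)
    (hcp : Summable fun i => c i * phi l (t i)) :
    phi l (∑' i, c i * t i) ≤ ∑' i, c i * phi l (t i) := by
  set s := ∑' i, c i * t i with hs
  have hs0 : 0 ≤ s := tsum_nonneg fun i => mul_nonneg (hc i) (ht i)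
  set m := 1 - l ^ 2 / (l + s) ^ 2 with hm
  have hm0 : 0 ≤ m := phi_slope_nonneg hl hs0
  have h1 : ∀ i, c i * phi l s + m * (c i * t i) - (m * s) * c i ≤ c i * phi l (t i) := by
    intro i
    have h2 := mul_le_mul_of_nonneg_left (phi_tangent hl hs0 (ht i)) (hc i)
    rw [← hm] at h2
    calc c i * phi l s + m * (c i * t i) - (m * s) * c i = c i * (phi l s + m * (t i - s)) := by
          ring
      _ ≤ _ := h2
  have h3 : Summable fun i => c i * phi l s + m * (c i * t i) - (m * s) * c i :=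
    ((hcs.mul_right _).add (hct.mul_left _)).sub (hcs.mul_left _)
  have h4 := h3.tsum_le_tsum h1 hcp
  have h5 : ∑' i, (c i * phi l s + m * (c i * t i) - (m * s) * c i) =
      (∑' i, c i) * phi l s + m * s - (m * s) * ∑' i, c i := by
    rw [((hcs.mul_right _).add (hct.mul_left _)).tsum_sub (hcs.mul_left _),
      (hcs.mul_right _).tsum_add (hct.mul_left _), tsum_mul_right, tsum_mul_left, tsum_mul_left]
  rw [h5] at h4
  have h6 := phi_le_slope_mul hl hs0
  rw [← hm] at h6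
  have hP : 0 ≤ 1 - ∑' i, c i := by linarith
  nlinarith [mul_nonneg hP (sub_nonneg.2 h6)]

/-- Jensen's inequality for two terms. -/
theorem phi_half (hl : 0 < l) {s t : ℝ} (hs : 0 ≤ s) (ht : 0 ≤ t) :
    phi l ((s + t) / 2) ≤ (phi l s + phi l t) / 2 := by
  have h0 : 0 ≤ (s + t) / 2 := by linarith
  have h1 := phi_tangent hl h0 hs
  have h2 := phi_tangent hl h0 ht
  have h3 : (1 - l ^ 2 / (l + (s + t) / 2) ^ 2) * (s - (s + t) / 2) +
    (1 - l ^ 2 / (l + (s + t) / 2) ^ 2) * (t - (s + t) / 2) = 0 := by ring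
  linarith

/-- Convexity. -/
theorem phi_convex (hl : 0 < l) {a b s t : ℝ} (ha : 0 ≤ a) (hb : 0 ≤ b) (hab : a + b = 1)
    (hs : 0 ≤ s) (ht : 0 ≤ t) : phi l (a * s + b * t) ≤ a * phi l s + b * phi l t := by
  have h0 : 0 ≤ a * s + b * t := by positivity
  have h1 := mul_le_mul_of_nonneg_left (phi_tangent hl h0 hs) ha
  have h2 := mul_le_mul_of_nonneg_left (phi_tangent hl h0 ht) hb
  have h3 : a * (phi l (a * s + b * t) + (1 - l ^ 2 / (l + (a * s + b * t)) ^ 2) *
      (s - (a * s + b * t))) + b * (phi l (a * s + b * t) +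
      (1 - l ^ 2 / (l + (a * s + b * t)) ^ 2) * (t - (a * s + b * t))) =
      (a + b) * phi l (a * s + b * t) + (1 - l ^ 2 / (l + (a * s + b * t)) ^ 2) *
        ((a * s + b * t) * (1 - (a + b))) := by ring
  rw [hab] at h3
  linarith

/-- Growth under scaling. -/
theorem phi_mul_le (hl : 0 < l) {c t : ℝ} (hc : 1 ≤ c) (ht : 0 ≤ t) :
    phi l (c * t) ≤ c ^ 2 * phi l t := by
  unfold phi
  rw [mul_pow, mul_div_assoc]
  have : t ^ 2 / (l + c * t) ≤ t ^ 2 / (l + t) := by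
    gcongr
    nlinarith
  exact mul_le_mul_of_nonneg_left this (by positivity)

theorem phi_mul_le' (hl : 0 < l) {c t : ℝ} (hc0 : 0 ≤ c) (hc : c ≤ 1) (ht : 0 ≤ t) :
    phi l (c * t) ≤ c * phi l t := by
  have h := phi_convex hl hc0 (sub_nonneg.2 hc) (by ring) ht le_rfl
  simpa [phi_zero] using h

/-- Quasi-subadditivity. -/
theorem phi_add_le (hl : 0 < l) {s t : ℝ} (hs : 0 ≤ s) (ht : 0 ≤ t) :
    phi l (s + t) ≤ 2 * phi l s + 2 * phi l t := by
  have h1 : s + t = 1 / 2 * (2 * s) + 1 / 2 * (2 * t) := by ring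
  have h2 := phi_convex hl (a := 1 / 2) (b := 1 / 2) (by norm_num) (by norm_num) (by norm_num)
    (mul_nonneg zero_le_two hs) (mul_nonneg zero_le_two ht)
  have h3 := phi_mul_le hl one_le_two hs
  have h4 := phi_mul_le hl one_le_two ht
  rw [h1]
  linarith

theorem phi_add_le' (hl : 0 < l) {s t : ℝ} (hs : 0 ≤ s) (ht : 0 ≤ t) :
    phi l (s + t) ≤ 4 / 3 * phi l s + 4 * phi l t := by
  have h1 : s + t = 3 / 4 * (4 / 3 * s) + 1 / 4 * (4 * t) := by ring
  have h2 := phi_convex hl (a := 3 / 4) (b := 1 / 4) (by norm_num) (by norm_num) (by norm_num)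
    (s := 4 / 3 * s) (t := 4 * t) (by positivity) (by positivity)
  have h3 := phi_mul_le hl (c := 4 / 3) (by norm_num) hs
  have h4 := phi_mul_le hl (c := 4) (by norm_num) ht
  rw [h1]
  linarith

end Pool.Agent.H64.AugIdeal
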