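import Mathlib
import Pool.Agent.H64.AugIdeal.Tree
import Pool.Agent.H64.AugIdeal.Quot
import Pool.Agent.H64.AugIdeal.Phi
import Pool.Agent.H64.AugIdeal.Conv2

/-!
# Two children maps on the free group and the basic energy inequality
-/

namespace Pool.Agent.H64.AugIdeal

open Filter Topology

section words

variable {α : Type*} [DecidableEq α]

/-- Add a letter `a` or `a⁻¹` in front, so that no cancellation occurs. -/
def kap (a : α) (u : FreeGroup α) : FreeGroup α :=
  if u.toWord.head? = some (a, true) then FreeGroup.of a * u else (FreeGroup.of a)⁻¹ * u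

theorem inv_mul_toWord (a : α) (u : FreeGroup α) (h : u.toWord.head? ≠ some (a, true)) :
    ((FreeGroup.of a)⁻¹ * u).toWord = (a, false) :: u.toWord := by
  rcases toWord_letter_mul (a, false) u with h1 | h1
  · exact h1
  · exfalso
    apply h
    rw [h1]
    rfl

theorem kap_toWord (a : α) (u : FreeGroup α) : ∃ b, (kap a u).toWord = (a, b) :: u.toWord := by
  unfold kap
  split_ifs with h
  · refine ⟨true, ?_⟩
    rcases toWord_letter_mul (a, true) u with h1 | h1
    · exact h1
    · exfalso
      rw [h1] at h
      simp at h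
  · exact ⟨false, inv_mul_toWord a u h⟩

theorem kap_injective (a : α) : Function.Injective (kap a) := by
  intro u v h
  obtain ⟨b, hb⟩ := kap_toWord a u
  obtain ⟨c, hc⟩ := kap_toWord a v
  rw [h, hc] at hb
  exact FreeGroup.toWord_injective (List.cons.inj hb).2.symm

theorem kap_ne {a b : α} (hab : a ≠ b) (u v : FreeGroup α) : kap a u ≠ kap b v := by
  intro h
  obtain ⟨c, hc⟩ := kap_toWord a u
  obtain ⟨d, hd⟩ := kap_toWord b v
  rw [h, hd] at hc
  exact hab (Prod.mk.inj (List.cons.inj hc).1).1.symm

/-- The child of `g` in direction `a^{±1}`. -/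
def child (a : α) (g : FreeGroup α) : FreeGroup α := (kap a g⁻¹)⁻¹

theorem child_injective (a : α) : Function.Injective (child a) := fun _ _ h =>
  inv_injective (kap_injective a (inv_injective h))

theorem child_ne {a b : α} (hab : a ≠ b) (u v : FreeGroup α) : child a u ≠ child b v := fun h =>
  kap_ne hab _ _ (inv_injective h)

/-- The place where the gradient has to be evaluated. -/
def edge (a : α) (g : FreeGroup α) : FreeGroup α :=
  if g⁻¹.toWord.head? = some (a, true) then g else g * FreeGroup.of a

theorem edge_injective (a : α) : Function.Injective (edge a) := by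
  have key : ∀ g h : FreeGroup α, g⁻¹.toWord.head? = some (a, true) →
      h⁻¹.toWord.head? ≠ some (a, true) → g ≠ h * FreeGroup.of a := by
    rintro g h hg hh rfl
    rw [mul_inv_rev, inv_mul_toWord a _ hh] at hg
    simp at hg
  intro g h e
  unfold edge at e
  split_ifs at e with h1 h2 h2
  · exact e
  · exact absurd e (key g h h1 h2)
  · exact absurd e.symm (key h g h2 h1)
  · exact mul_right_cancel e

theorem child_edge (a : α) (g : FreeGroup α) (f : FreeGroup α → ℂ) :
    ‖f (child a g) - f g‖ =
      ‖f (edge a g * (FreeGroup.of a)⁻¹) - f (edge a g)‖ := by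
  unfold child edge kap
  split_ifs with h
  · rw [mul_inv_rev, inv_inv]
  · rw [mul_inv_rev, inv_inv, inv_inv, mul_inv_cancel_right, norm_sub_rev]

end words

variable {n : ℕ}

/-- The energy `∑ φ_l(|f(g)|)`. -/
noncomputable def N (l : ℝ) (f : H2 n) : ℝ := ∑' g, phi l ‖f g‖

theorem summable_N {l : ℝ} (hl : 0 < l) (f : H2 n) : Summable fun g => phi l ‖f g‖ :=
  Summable.of_nonneg_of_le (fun _ => phi_nonneg hl (norm_nonneg _))
    (fun _ => phi_le_sq hl (norm_nonneg _)) ((H2.summable_sq f).div_const l)

theorem N_nonneg {l : ℝ} (hl : 0 < l) (f : H2 n) : 0 ≤ N l f :=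
  tsum_nonneg fun _ => phi_nonneg hl (norm_nonneg _)

/-- Sum over two injective maps with disjoint ranges. -/
theorem tsum_two_le {ι κ : Type*} {F : ι → ℝ} (hF : Summable F) (h0 : ∀ i, 0 ≤ F i)
    {c d : κ → ι} (hc : Function.Injective c) (hd : Function.Injective d)
    (hcd : ∀ i j, c i ≠ d j) : ∑' g, F (c g) + ∑' g, F (d g) ≤ ∑' g, F g := by
  have h1 : Function.Injective (Sum.elim c d) := by
    rintro (i | i) (j | j) e
    · exact congrArg _ (hc e)
    · exact absurd e (hcd _ _)
    · exact absurd e.symm (hcd _ _)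
    · exact congrArg _ (hd e)
  have h2 : Summable (F ∘ Sum.elim c d) := hF.comp_injective h1
  have h3 : ∑' s, (F ∘ Sum.elim c d) s = ∑' g, F (c g) + ∑' g, F (d g) :=
    Summable.tsum_sum (hF.comp_injective hc) (hF.comp_injective hd)
  rw [← h3]
  exact h2.tsum_le_tsum_of_inj (Sum.elim c d) h1 (fun i _ => h0 i) (fun s => le_rfl) hF

/-- The gradient in direction `a`. -/
noncomputable def gradH (a : Fin n) (f : H2 n) : H2 n := rho (FreeGroup.of a) f - f

theorem gradH_apply (a : Fin n) (f : H2 n) (u : FreeGroup (Fin n)) :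
    gradH a f u = f (u * (FreeGroup.of a)⁻¹) - f u := rfl

/-- The energy of a function is controlled by the energies of its gradients in two directions. -/
theorem N_le_grad {l : ℝ} (hl : 0 < l) {a b : Fin n} (hab : a ≠ b) (f : H2 n) :
    N l f ≤ 6 * (N l (gradH a f) + N l (gradH b f)) := by
  have hpt : ∀ g, phi l ‖f g‖ ≤
      2 / 3 * (phi l ‖f (child a g)‖ + phi l ‖f (child b g)‖) +
      2 * (phi l ‖gradH a f (edge a g)‖ + phi l ‖gradH b f (edge b g)‖) := by
    intro g
    have e1 : ‖gradH a f (edge a g)‖ = ‖f (child a g) - f g‖ := by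
      rw [gradH_apply]
      exact (child_edge a g f).symm
    have e2 : ‖gradH b f (edge b g)‖ = ‖f (child b g) - f g‖ := by
      rw [gradH_apply]
      exact (child_edge b g f).symm
    have h1 : ‖f g‖ ≤ (‖f (child a g)‖ + ‖f (child b g)‖) / 2 +
        (‖f (child a g) - f g‖ + ‖f (child b g) - f g‖) / 2 := by
      have h2 : ‖f g‖ ≤ ‖f (child a g)‖ + ‖f (child a g) - f g‖ := by
        have := norm_sub_le (f (child a g)) (f (child a g) - f g)
        rwa [sub_sub_cancel] at this
      have h3 : ‖f g‖ ≤ ‖f (child b g)‖ + ‖f (child b g) - f g‖ := by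
        have := norm_sub_le (f (child b g)) (f (child b g) - f g)
        rwa [sub_sub_cancel] at this
      linarith
    rw [e1, e2]
    have h2 := phi_mono hl (norm_nonneg _) h1
    have h3 := phi_add_le' hl (s := (‖f (child a g)‖ + ‖f (child b g)‖) / 2)
      (t := (‖f (child a g) - f g‖ + ‖f (child b g) - f g‖) / 2) (by positivity) (by positivity)
    have h4 := phi_half hl (norm_nonneg (f (child a g))) (norm_nonneg (f (child b g)))
    have h5 := phi_half hl (norm_nonneg (f (child a g) - f g))
      (norm_nonneg (f (child b g) - f g))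
    linarith
  have s1 := (summable_N hl f).comp_injective (child_injective a)
  have s2 := (summable_N hl f).comp_injective (child_injective b)
  have s3 := (summable_N hl (gradH a f)).comp_injective (edge_injective a)
  have s4 := (summable_N hl (gradH b f)).comp_injective (edge_injective b)
  have h1 : N l f ≤ 2 / 3 * (∑' g, phi l ‖f (child a g)‖ + ∑' g, phi l ‖f (child b g)‖) +
      2 * (∑' g, phi l ‖gradH a f (edge a g)‖ + ∑' g, phi l ‖gradH b f (edge b g)‖) := by
    have h2 := (summable_N hl f).tsum_le_tsum hpt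
      (((s1.add s2).mul_left (2 / 3)).add ((s3.add s4).mul_left 2))
    refine h2.trans (le_of_eq ?_)
    have h3 : Summable fun g => 2 / 3 * (phi l ‖f (child a g)‖ + phi l ‖f (child b g)‖) :=
      (s1.add s2).mul_left (2 / 3)
    have h4 : Summable fun g =>
        2 * (phi l ‖gradH a f (edge a g)‖ + phi l ‖gradH b f (edge b g)‖) :=
      (s3.add s4).mul_left 2
    rw [h3.tsum_add h4, tsum_mul_left, tsum_mul_left]
    congr 2
    · exact s1.tsum_add s2
    · exact s3.tsum_add s4
  have h2 : ∑' g, phi l ‖f (child a g)‖ + ∑' g, phi l ‖f (child b g)‖ ≤ N l f :=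
    tsum_two_le (F := fun g => phi l ‖f g‖) (summable_N hl f)
      (fun _ => phi_nonneg hl (norm_nonneg _)) (child_injective a) (child_injective b)
      (fun i j => child_ne hab i j)
  have h3 : ∑' g, phi l ‖gradH a f (edge a g)‖ ≤ N l (gradH a f) :=
    s3.tsum_le_tsum_of_inj (edge a) (edge_injective a)
      (fun i _ => phi_nonneg hl (norm_nonneg _)) (fun s => le_rfl) (summable_N hl _)
  have h4 : ∑' g, phi l ‖gradH b f (edge b g)‖ ≤ N l (gradH b f) :=
    s4.tsum_le_tsum_of_inj (edge b) (edge_injective b)
      (fun i _ => phi_nonneg hl (norm_nonneg _)) (fun s => le_rfl) (summable_N hl _)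
  linarith

end Pool.Agent.H64.AugIdeal
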