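import Mathlib

/-!
# Finite-range equations on a finite group

If there are fewer equations than unknowns per group element, then there is a solution of norm at
most one whose value at the identity is at least `1/n`.
-/

namespace Pool.Agent.H64.AugIdeal

open Module

variable {G : Type*} [Group G] {n k : ℕ}

/-- The value at `g` of the finite-range equation with coefficients `X` applied to `f`, where `G`
acts through a homomorphism `π`. -/
noncomputable def appQ {Q : Type*} [Group Q] (π : G →* Q) (X : (G × Fin n) →₀ ℂ)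
    (f : Q × Fin n → ℂ) (q : Q) : ℂ :=
  X.sum fun p c => c * f (π p.1 * q, p.2)

/-- The system of equations as a linear map. -/
noncomputable def sysQ {Q : Type*} [Group Q] (π : G →* Q)
    (X : Fin k → ((G × Fin n) →₀ ℂ)) :
    EuclideanSpace ℂ (Q × Fin n) →ₗ[ℂ] (Q × Fin k → ℂ) where
  toFun f := fun q => appQ π (X q.2) (fun p => f p) q.1
  map_add' f g := by
    funext q
    simp only [appQ, PiLp.add_apply, Pi.add_apply, Finsupp.sum, mul_add, Finset.sum_add_distrib]
  map_smul' c f := by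
    funext q
    simp only [appQ, PiLp.smul_apply, Pi.smul_apply, Finsupp.sum, smul_eq_mul, RingHom.id_apply,
      Finset.mul_sum]
    refine Finset.sum_congr rfl fun p _ => ?_
    ring

theorem finite_solution (hk : k < n) (X : Fin k → ((G × Fin n) →₀ ℂ))
    {Q : Type*} [Group Q] [Fintype Q] (π : G →* Q) :
    ∃ f : Q × Fin n → ℂ, (∀ q i, appQ π (X i) f q = 0) ∧ ∑ p, ‖f p‖ ^ 2 ≤ 1 ∧
      ∃ j, (1 : ℝ) / n ≤ ‖f (1, j)‖ := by
  classical
  set L := sysQ π X with hL
  set K := LinearMap.ker L with hK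
  have hn : 0 < n := by omega
  -- dimension count
  have hdim : Fintype.card Q ≤ finrank ℂ K := by
    have h1 := LinearMap.finrank_range_add_finrank_ker L
    have h2 : finrank ℂ (LinearMap.range L) ≤ Fintype.card Q * k := by
      refine (Submodule.finrank_le _).trans ?_
      rw [Module.finrank_fintype_fun_eq_card, Fintype.card_prod, Fintype.card_fin]
    have h3 : finrank ℂ (EuclideanSpace ℂ (Q × Fin n)) = Fintype.card Q * n := by
      rw [finrank_euclideanSpace, Fintype.card_prod, Fintype.card_fin]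
    rw [h3] at h1
    have h4 : Fintype.card Q * k + Fintype.card Q ≤ Fintype.card Q * n := by
      have : Fintype.card Q * (k + 1) ≤ Fintype.card Q * n := Nat.mul_le_mul_left _ hk
      rwa [Nat.mul_add, Nat.mul_one] at this
    change _ ≤ finrank ℂ (LinearMap.ker L)
    omega
  set b := stdOrthonormalBasis ℂ K with hb
  -- total mass
  have hmass : ∑ p : Q × Fin n, ∑ i, ‖(b i : EuclideanSpace ℂ (Q × Fin n)) p‖ ^ 2 =
      finrank ℂ K := by
    rw [Finset.sum_comm]
    have : ∀ i, ∑ p : Q × Fin n, ‖(b i : EuclideanSpace ℂ (Q × Fin n)) p‖ ^ 2 = 1 := by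
      intro i
      rw [← EuclideanSpace.norm_sq_eq]
      have h1 : ‖(b i : EuclideanSpace ℂ (Q × Fin n))‖ = 1 := b.orthonormal.1 i
      rw [h1, one_pow]
    rw [Finset.sum_congr rfl fun i _ => this i]
    simp
  -- pigeonhole
  obtain ⟨p₀, hp₀⟩ : ∃ p₀ : Q × Fin n,
      (1 : ℝ) / n ≤ ∑ i, ‖(b i : EuclideanSpace ℂ (Q × Fin n)) p₀‖ ^ 2 := by
    by_contra hcon
    push Not at hcon
    have h1 : ∑ p : Q × Fin n, ∑ i, ‖(b i : EuclideanSpace ℂ (Q × Fin n)) p‖ ^ 2 <
        ∑ _p : Q × Fin n, (1 : ℝ) / n := by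
      apply Finset.sum_lt_sum_of_nonempty
      · exact ⟨(1, ⟨0, hn⟩), Finset.mem_univ _⟩
      · intro p _
        exact hcon p
    rw [hmass, Finset.sum_const, Finset.card_univ, Fintype.card_prod, Fintype.card_fin,
      nsmul_eq_mul] at h1
    have hn' : (n : ℝ) ≠ 0 := by positivity
    have h2 : ((Fintype.card Q * n : ℕ) : ℝ) * (1 / n) = Fintype.card Q := by
      push_cast
      field_simp
    rw [h2] at h1
    have h3 : ((Fintype.card Q : ℕ) : ℝ) ≤ finrank ℂ K := by exact_mod_cast hdim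
    linarith
  -- the solution
  set s := ∑ i, ‖(b i : EuclideanSpace ℂ (Q × Fin n)) p₀‖ ^ 2 with hs
  set v : K := ∑ i, (starRingEnd ℂ ((b i : EuclideanSpace ℂ (Q × Fin n)) p₀)) • b i with hv
  have hvp : (v : EuclideanSpace ℂ (Q × Fin n)) p₀ = (s : ℂ) := by
    rw [hv]
    simp only [Submodule.coe_sum, Submodule.coe_smul, WithLp.ofLp_sum, Finset.sum_apply,
      PiLp.smul_apply, smul_eq_mul, hs]
    push_cast
    refine Finset.sum_congr rfl fun i _ => ?_
    exact Complex.conj_mul' _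
  have hvn : ‖v‖ ^ 2 = s := by
    have h1 : ‖v‖ ^ 2 = ∑ i, ‖starRingEnd ℂ ((b i : EuclideanSpace ℂ (Q × Fin n)) p₀)‖ ^ 2 := by
      have h2 := b.sum_sq_norm_inner_right v
      rw [← h2]
      refine Finset.sum_congr rfl fun i _ => ?_
      congr 2
      rw [hv]
      exact b.orthonormal.inner_right_fintype _ i
    rw [h1, hs]
    refine Finset.sum_congr rfl fun i _ => ?_
    rw [RCLike.norm_conj]
  have hsn : 0 ≤ s := Finset.sum_nonneg fun i _ => by positivity
  have hs1 : s ≤ 1 := by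
    have h1 : ‖(v : EuclideanSpace ℂ (Q × Fin n)) p₀‖ ≤ ‖v‖ := by
      have := PiLp.norm_apply_le (v : EuclideanSpace ℂ (Q × Fin n)) p₀
      exact this
    rw [hvp] at h1
    have h2 : ‖(s : ℂ)‖ = s := by
      rw [Complex.norm_real]
      exact abs_of_nonneg hsn
    rw [h2] at h1
    have h3 : s ^ 2 ≤ s := by
      calc s ^ 2 ≤ ‖v‖ ^ 2 := by gcongr
        _ = s := hvn
    nlinarith
  have hvker : L (v : EuclideanSpace ℂ (Q × Fin n)) = 0 := v.2
  obtain ⟨q₀, j₀⟩ := p₀
  refine ⟨fun p => (v : EuclideanSpace ℂ (Q × Fin n)) (p.1 * q₀, p.2), ?_, ?_, j₀, ?_⟩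
  · intro q i
    have h1 := congrFun hvker (q * q₀, i)
    change appQ π (X i) _ (q * q₀) = 0 at h1
    rw [← h1]
    unfold appQ
    simp only [mul_assoc]
  · have h1 : ∑ p : Q × Fin n, ‖(v : EuclideanSpace ℂ (Q × Fin n)) (p.1 * q₀, p.2)‖ ^ 2 =
        ∑ p : Q × Fin n, ‖(v : EuclideanSpace ℂ (Q × Fin n)) p‖ ^ 2 :=
      Fintype.sum_equiv ((Equiv.mulRight q₀).prodCongr (Equiv.refl _)) _ _ fun p => rfl
    rw [h1, ← EuclideanSpace.norm_sq_eq]
    have : ‖(v : EuclideanSpace ℂ (Q × Fin n))‖ ^ 2 = s := hvn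
    rw [this]
    exact hs1
  · change _ ≤ ‖(v : EuclideanSpace ℂ (Q × Fin n)) (1 * q₀, j₀)‖
    rw [one_mul, hvp, Complex.norm_real]
    exact hp₀.trans (le_abs_self _)

end Pool.Agent.H64.AugIdeal
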