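import Mathlib
import Pool.Agent.H64.AugIdeal.Quot
import Pool.Agent.H64.AugIdeal.Dim

/-!
# Square-summable solutions of finite-range equations on the free group
-/

namespace Pool.Agent.H64.AugIdeal

open Filter Topology

variable {n k : ℕ}

/-- The value at `g` of the finite-range equation with coefficients `X` applied to `f`. -/
noncomputable def app (X : (FreeGroup (Fin n) × Fin n) →₀ ℂ)
    (f : FreeGroup (Fin n) × Fin n → ℂ) (g : FreeGroup (Fin n)) : ℂ :=
  X.sum fun p c => c * f (p.1 * g, p.2)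

theorem exists_l2_solution (hk : k < n) (X : Fin k → ((FreeGroup (Fin n) × Fin n) →₀ ℂ)) :
    ∃ f : FreeGroup (Fin n) × Fin n → ℂ, (∀ g i, app (X i) f g = 0) ∧
      Summable (fun p => ‖f p‖ ^ 2) ∧ ∃ j, f (1, j) ≠ 0 := by
  classical
  have hn : 0 < n := by omega
  -- the approximate solutions
  have key : ∀ m : ℕ, ∃ f : FreeGroup (Fin n) × Fin n → ℂ, (∀ g i, app (X i) f g = 0) ∧
      (∀ p, ‖f p‖ ≤ 1) ∧
      (∀ S : Finset (FreeGroup (Fin n) × Fin n), (∀ p ∈ S, FreeGroup.norm p.1 ≤ m) →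
        ∑ p ∈ S, ‖f p‖ ^ 2 ≤ 1) ∧ ((1 : ℝ) / n) ^ 2 ≤ ∑ j, ‖f (1, j)‖ ^ 2 := by
    intro m
    obtain ⟨π, hπ⟩ := exists_finite_quotient (α := Fin n) m
    have := Fintype.ofFinite (Ball (Fin n) m)
    obtain ⟨f, h1, h2, j, h3⟩ := finite_solution hk X π
    refine ⟨fun p => f (π p.1, p.2), ?_, ?_, ?_, ?_⟩
    · intro g i
      rw [← h1 (π g) i]
      unfold app appQ
      simp only [map_mul]
    · intro p
      have h4 : ‖f (π p.1, p.2)‖ ^ 2 ≤ ∑ p, ‖f p‖ ^ 2 :=
        Finset.single_le_sum (f := fun p => ‖f p‖ ^ 2) (fun _ _ => by positivity)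
          (Finset.mem_univ (π p.1, p.2))
      have h5 : ‖f (π p.1, p.2)‖ ^ 2 ≤ 1 := h4.trans h2
      exact (sq_le_one_iff₀ (norm_nonneg _)).1 h5
    · intro S hS
      have hinj : Set.InjOn (fun p : FreeGroup (Fin n) × Fin n => (π p.1, p.2)) S := by
        intro p hp q hq e
        have e1 : π p.1 = π q.1 := (Prod.mk.inj e).1
        have e2 : p.2 = q.2 := (Prod.mk.inj e).2
        exact Prod.ext (hπ (hS p hp) (hS q hq) e1) e2
      have h4 : ∑ p ∈ S, ‖f (π p.1, p.2)‖ ^ 2 =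
          ∑ q ∈ S.image (fun p : FreeGroup (Fin n) × Fin n => (π p.1, p.2)), ‖f q‖ ^ 2 := by
        rw [Finset.sum_image hinj]
      rw [h4]
      refine (Finset.sum_le_sum_of_subset_of_nonneg (Finset.subset_univ _) ?_).trans h2
      intro _ _ _
      positivity
    · have h4 : ‖f (π 1, j)‖ ^ 2 ≤ ∑ j, ‖f (π 1, j)‖ ^ 2 :=
        Finset.single_le_sum (f := fun j => ‖f (π 1, j)‖ ^ 2) (fun _ _ => by positivity)
          (Finset.mem_univ j)
      refine le_trans ?_ h4
      rw [map_one]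
      gcongr
  choose F hF1 hF2 hF3 hF4 using key
  -- the limit
  let U : Ultrafilter ℕ := Filter.hyperfilter ℕ
  have hcomp : IsCompact (Set.pi Set.univ
      fun _ : FreeGroup (Fin n) × Fin n => Metric.closedBall (0 : ℂ) 1) :=
    isCompact_univ_pi fun _ => isCompact_closedBall _ _
  obtain ⟨f, -, hf⟩ := hcomp.ultrafilter_le_nhds (U.map F) (by
    rw [le_principal_iff]
    change _ ∈ Filter.map F U
    rw [Filter.mem_map]
    refine Filter.univ_mem' fun m => ?_
    intro p _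
    rw [mem_closedBall_zero_iff]
    exact hF2 m p)
  have hlim : ∀ p, Tendsto (fun m => F m p) U (𝓝 (f p)) := by
    intro p
    have : Tendsto F U (𝓝 f) := hf
    exact (tendsto_pi_nhds.1 this) p
  have hU : (U : Filter ℕ) ≤ atTop := by
    have := Filter.hyperfilter_le_cofinite (α := ℕ)
    rwa [Nat.cofinite_eq_atTop] at this
  refine ⟨f, ?_, ?_, ?_⟩
  · intro g i
    have h1 : Tendsto (fun m => app (X i) (F m) g) U (𝓝 (app (X i) f g)) := by
      unfold app Finsupp.sum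
      exact tendsto_finsetSum _ fun p _ => (hlim _).const_mul _
    have h2 : Tendsto (fun m => app (X i) (F m) g) U (𝓝 0) := by
      simp only [hF1]
      exact tendsto_const_nhds
    exact tendsto_nhds_unique h1 h2
  · apply summable_of_sum_le (c := 1)
    · intro _
      positivity
    · intro S
      obtain ⟨m₀, hm₀⟩ : ∃ m₀, ∀ p ∈ S, FreeGroup.norm p.1 ≤ m₀ :=
        ⟨S.sup fun p => FreeGroup.norm p.1, fun p hp =>
          Finset.le_sup (f := fun p : FreeGroup (Fin n) × Fin n => FreeGroup.norm p.1) hp⟩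
      have h1 : Tendsto (fun m => ∑ p ∈ S, ‖F m p‖ ^ 2) U (𝓝 (∑ p ∈ S, ‖f p‖ ^ 2)) :=
        tendsto_finsetSum _ fun p _ => ((hlim p).norm).pow 2
      refine le_of_tendsto h1 ?_
      have h2 : ∀ᶠ m in (U : Filter ℕ), m₀ ≤ m := hU (eventually_ge_atTop m₀)
      filter_upwards [h2] with m hm
      exact hF3 m S fun p hp => (hm₀ p hp).trans hm
  · by_contra hcon
    push Not at hcon
    have h1 : Tendsto (fun m => ∑ j, ‖F m (1, j)‖ ^ 2) U (𝓝 (∑ j, ‖f (1, j)‖ ^ 2)) :=
      tendsto_finsetSum _ fun p _ => ((hlim _).norm).pow 2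
    have h2 : ((1 : ℝ) / n) ^ 2 ≤ ∑ j, ‖f (1, j)‖ ^ 2 :=
      ge_of_tendsto h1 (Filter.univ_mem' fun m => hF4 m)
    simp only [hcon, norm_zero, ne_eq, OfNat.ofNat_ne_zero, not_false_eq_true, zero_pow,
      Finset.sum_const_zero] at h2
    have : (0 : ℝ) < ((1 : ℝ) / n) ^ 2 := by positivity
    linarith

end Pool.Agent.H64.AugIdeal
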