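import Mathlib
import Pool.Agent.H64.AugIdeal.Tree
import Pool.Agent.H64.AugIdeal.Energy

/-!
# Exponentially decaying solutions

A square-summable solution of a system of finite-range equations on the free group that has
minimal energy in a suitable sense decays exponentially.
-/

namespace Pool.Agent.H64.AugIdeal

open Filter Topology

variable {n k : ℕ} {X : Fin k → ((FreeGroup (Fin n) × Fin n) →₀ ℂ)}

/-- The values of a solution on a ball are also the values of a solution whose norm is controlled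
by these values. -/
theorem exists_extension (X : Fin k → ((FreeGroup (Fin n) × Fin n) →₀ ℂ)) (ρ : ℕ) :
    ∃ C : ℝ, 0 < C ∧ ∀ f ∈ sol X, ∃ f' ∈ sol X,
      (∀ p : FreeGroup (Fin n) × Fin n, FreeGroup.norm p.1 ≤ ρ → f' p = f p) ∧
      ‖f'‖ ^ 2 ≤ C * en f {h | FreeGroup.norm h ≤ ρ} := by
  classical
  let B : Type := {p : FreeGroup (Fin n) × Fin n // FreeGroup.norm p.1 ≤ ρ}
  have hfin : {p : FreeGroup (Fin n) × Fin n | FreeGroup.norm p.1 ≤ ρ}.Finite := by
    have h1 := (finite_ball (α := Fin n) ρ).prod (Set.finite_univ (α := Fin n))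
    refine h1.subset ?_
    intro p hp
    exact ⟨hp, Set.mem_univ _⟩
  have : Finite B := hfin.to_subtype
  have : Fintype B := Fintype.ofFinite B
  let Res : sol X →ₗ[ℂ] (B → ℂ) :=
    { toFun := fun f b => (f : E2 n) b.1
      map_add' := fun f g => rfl
      map_smul' := fun c f => rfl }
  obtain ⟨σ, hσ⟩ := Res.rangeRestrict.exists_rightInverse_of_surjective
    (LinearMap.range_eq_top.2 Res.surjective_rangeRestrict)
  let σ' : LinearMap.range Res →L[ℂ] sol X := LinearMap.toContinuousLinearMap σ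
  refine ⟨‖σ'‖ ^ 2 + 1, by positivity, ?_⟩
  intro f hf
  set w : LinearMap.range Res := Res.rangeRestrict ⟨f, hf⟩ with hw
  have h1 : Res.rangeRestrict (σ w) = w := by
    have := LinearMap.congr_fun hσ w
    exact this
  refine ⟨(σ w : E2 n), (σ w).2, ?_, ?_⟩
  · intro p hp
    have h2 := congrArg (fun v : LinearMap.range Res => (v : B → ℂ) ⟨p, hp⟩) h1
    exact h2
  · have h2 : ‖(σ w : E2 n)‖ ≤ ‖σ'‖ * ‖w‖ := σ'.le_opNorm w
    have h3 : ‖w‖ ^ 2 ≤ en f {h | FreeGroup.norm h ≤ ρ} := by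
      have h4 : ‖w‖ ≤ Real.sqrt (en f {h | FreeGroup.norm h ≤ ρ}) := by
        change ‖(w : B → ℂ)‖ ≤ _
        refine (pi_norm_le_iff_of_nonneg (Real.sqrt_nonneg _)).2 ?_
        intro b
        apply Real.le_sqrt_of_sq_le
        exact sq_le_en (summable_sq f) (p := b.1) b.2
      calc ‖w‖ ^ 2 ≤ Real.sqrt (en f {h | FreeGroup.norm h ≤ ρ}) ^ 2 := by gcongr
        _ = _ := Real.sq_sqrt en_nonneg
    calc ‖(σ w : E2 n)‖ ^ 2 ≤ (‖σ'‖ * ‖w‖) ^ 2 := by gcongr
      _ = ‖σ'‖ ^ 2 * ‖w‖ ^ 2 := by ring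
      _ ≤ ‖σ'‖ ^ 2 * en f {h | FreeGroup.norm h ≤ ρ} := by gcongr
      _ ≤ (‖σ'‖ ^ 2 + 1) * en f {h | FreeGroup.norm h ≤ ρ} := by
        have := en_nonneg (f := f) (S := {h | FreeGroup.norm h ≤ ρ})
        nlinarith

open Classical in
/-- Two solutions that agree near `g` can be glued along the boundary of `T g`. -/
theorem glue {R : ℕ} (hR : ∀ i, ∀ p ∈ (X i).support, FreeGroup.norm p.1 ≤ R)
    {f₁ f₂ : FreeGroup (Fin n) × Fin n → ℂ} (h₁ : ∀ g i, app (X i) f₁ g = 0)
    (h₂ : ∀ g i, app (X i) f₂ g = 0) (g : FreeGroup (Fin n))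
    (hagree : ∀ h j, FreeGroup.norm h ≤ 2 * R → f₁ (h * g, j) = f₂ (h * g, j)) :
    ∀ u i, app (X i) (fun p => if p.1 ∈ T g then f₁ p else f₂ p) u = 0 := by
  intro u i
  by_cases hin : ∀ p ∈ (X i).support, p.1 * u ∈ T g
  · rw [← h₁ u i]
    unfold app Finsupp.sum
    refine Finset.sum_congr rfl fun p hp => ?_
    simp only [hin p hp, if_true]
  · by_cases hout : ∀ p ∈ (X i).support, p.1 * u ∉ T g
    · rw [← h₂ u i]
      unfold app Finsupp.sum
      refine Finset.sum_congr rfl fun p hp => ?_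
      simp only [hout p hp, if_false]
    · push Not at hin hout
      obtain ⟨p₁, hp₁, m₁⟩ := hout
      obtain ⟨p₂, hp₂, m₂⟩ := hin
      obtain ⟨h', hn, he⟩ := cross (hR i p₁ hp₁) (hR i p₂ hp₂) m₁ m₂
      rw [← h₂ u i]
      unfold app Finsupp.sum
      refine Finset.sum_congr rfl fun p hp => ?_
      by_cases hm : p.1 * u ∈ T g
      · simp only [hm, if_true]
        have e : p.1 * u = (p.1 * h'⁻¹) * g := by
          rw [← he]
          group
        rw [e]
        refine congrArg (fun z => X i p * z) (hagree _ _ ?_)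
        calc FreeGroup.norm (p.1 * h'⁻¹) ≤ FreeGroup.norm p.1 + FreeGroup.norm (h'⁻¹) :=
              FreeGroup.norm_mul_le _ _
          _ = FreeGroup.norm p.1 + FreeGroup.norm h' := by rw [FreeGroup.norm_inv_eq]
          _ ≤ 2 * R := by
            have := hR i p hp
            omega
      · simp only [hm, if_false]

/-- The solution of least energy subject to a condition at the identity: its energy behind `g` is
controlled by its energy near `g`. -/
theorem exists_minimal {R : ℕ} (hR : ∀ i, ∀ p ∈ (X i).support, FreeGroup.norm p.1 ≤ R)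
    {w : E2 n} (hw : w ∈ sol X) {j : Fin n} (hwj : w (1, j) ≠ 0) :
    ∃ f ∈ sol X, f ≠ 0 ∧ ∃ C : ℝ, 0 < C ∧ ∀ g : FreeGroup (Fin n), g ≠ 1 →
      en f (T g) ≤ C * en f {u | FreeGroup.norm (u * g⁻¹) ≤ 2 * R} := by
  classical
  have : CompleteSpace (sol X) := (isClosed_sol X).completeSpace_coe
  set e : E2 n := lp.single 2 (1, j) (1 : ℂ) with he
  set f : E2 n := (sol X).starProjection e with hf
  have hfs : f ∈ sol X := Submodule.starProjection_apply_mem _ _
  have horth : ∀ v ∈ sol X, inner ℂ v (e - f) = 0 := by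
    intro v hv
    exact (sol X).sub_starProjection_mem_orthogonal e v hv
  have hin : ∀ v : E2 n, inner ℂ v e = starRingEnd ℂ (v (1, j)) := by
    intro v
    rw [he, lp.inner_single_right]
    simp
  have hne : f ≠ 0 := by
    intro h0
    have h1 := horth w hw
    rw [h0, sub_zero, hin] at h1
    exact hwj ((map_eq_zero _).1 h1)
  obtain ⟨C, hC, hext⟩ := exists_extension X (2 * R)
  refine ⟨f, hfs, hne, C, hC, ?_⟩
  intro g hg
  -- the extension
  set fg : E2 n := mkE (fun p => f (p.1 * g, p.2)) (summable_comp (summable_sq f) g) with hfg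
  obtain ⟨f', hf's, hf'1, hf'2⟩ := hext fg (translate_mem_sol hfs g)
  -- the glued solution
  have hsum1 : Summable fun p : FreeGroup (Fin n) × Fin n => ‖f' (p.1 * g⁻¹, p.2)‖ ^ 2 :=
    summable_comp (summable_sq f') _
  have hsum2 := summable_sq f
  have hle : ∀ p : FreeGroup (Fin n) × Fin n,
      ‖(if p.1 ∈ T g then f' (p.1 * g⁻¹, p.2) else f p)‖ ^ 2 ≤
        ‖f' (p.1 * g⁻¹, p.2)‖ ^ 2 +
          Set.indicator {p : FreeGroup (Fin n) × Fin n | p.1 ∈ (T g)ᶜ} (fun p => ‖f p‖ ^ 2) p := by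
    intro p
    by_cases hp : p.1 ∈ T g
    · have h2 : p ∉ {p : FreeGroup (Fin n) × Fin n | p.1 ∈ (T g)ᶜ} := fun h => h hp
      rw [if_pos hp, Set.indicator_of_notMem h2, add_zero]
    · have h2 : p ∈ {p : FreeGroup (Fin n) × Fin n | p.1 ∈ (T g)ᶜ} := hp
      rw [if_neg hp, Set.indicator_of_mem h2]
      have : 0 ≤ ‖f' (p.1 * g⁻¹, p.2)‖ ^ 2 := by positivity
      linarith
  have hsum3 : Summable fun p : FreeGroup (Fin n) × Fin n =>
      ‖(if p.1 ∈ T g then f' (p.1 * g⁻¹, p.2) else f p)‖ ^ 2 :=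
    Summable.of_nonneg_of_le (fun _ => by positivity) hle (hsum1.add (summable_en hsum2))
  set h : E2 n := mkE (fun p => if p.1 ∈ T g then f' (p.1 * g⁻¹, p.2) else f p) hsum3 with hh
  have hhs : h ∈ sol X := by
    have h1 : ∀ u i, app (X i) (fun p => f' (p.1 * g⁻¹, p.2)) u = 0 := by
      intro u i
      have := hf's (u * g⁻¹) i
      unfold app at *
      rw [← this]
      simp only [mul_assoc]
    refine glue hR h1 hfs g ?_
    intro v j hv
    change f' (v * g * g⁻¹, j) = f (v * g, j)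
    rw [mul_inv_cancel_right]
    exact hf'1 (v, j) hv
  -- minimality
  have hval : (f - h) (1, j) = 0 := by
    have : h (1, j) = f (1, j) := by
      change (if (1 : FreeGroup (Fin n)) ∈ T g then _ else f (1, j)) = _
      rw [if_neg (one_notMem_T hg)]
    rw [lp.coeFn_sub, Pi.sub_apply, this, sub_self]
  have horth2 : inner ℂ (f - h) f = 0 := by
    have h1 := horth (f - h) ((sol X).sub_mem hfs hhs)
    rw [inner_sub_right, hin, hval, map_zero, zero_sub, neg_eq_zero] at h1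
    exact h1
  have hmin : ‖f‖ ^ 2 ≤ ‖h‖ ^ 2 := by
    have h1 : h = f - (f - h) := by abel
    have h2 : ‖f - (f - h)‖ ^ 2 = ‖f‖ ^ 2 + ‖f - h‖ ^ 2 := by
      have h3 := norm_sub_sq (𝕜 := ℂ) f (f - h)
      have h4 : inner ℂ f (f - h) = 0 := by
        rw [← inner_conj_symm, horth2, map_zero]
      rw [h3, h4]
      simp
    rw [h1, h2]
    have : 0 ≤ ‖f - h‖ ^ 2 := by positivity
    linarith
  have hsplit : ‖f‖ ^ 2 = en f (T g) + en f (T g)ᶜ := by
    rw [en_add hsum2 disjoint_compl_right, Set.union_compl_self, en_univ, norm_sq]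
  have hhn : ‖h‖ ^ 2 ≤ ‖f'‖ ^ 2 + en f (T g)ᶜ := by
    rw [norm_sq]
    refine (hsum3.tsum_le_tsum hle (hsum1.add (summable_en hsum2))).trans ?_
    rw [hsum1.tsum_add (summable_en hsum2)]
    refine add_le_add ?_ le_rfl
    rw [norm_sq]
    have : (∑' p : FreeGroup (Fin n) × Fin n, ‖f' (p.1 * g⁻¹, p.2)‖ ^ 2) = ∑' p, ‖f' p‖ ^ 2 := by
      let e' : FreeGroup (Fin n) × Fin n ≃ FreeGroup (Fin n) × Fin n :=
        (Equiv.mulRight g⁻¹).prodCongr (Equiv.refl _)
      exact e'.tsum_eq (fun p => ‖f' p‖ ^ 2)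
    exact this.le
  have hball : en fg {h | FreeGroup.norm h ≤ 2 * R} =
      en f {u | FreeGroup.norm (u * g⁻¹) ≤ 2 * R} := en_comp (f := f) g
  rw [← hball]
  linarith

/-- There is a nonzero solution that decays exponentially. -/
theorem exists_decaying {w : E2 n} (hw : w ∈ sol X) {j : Fin n} (hwj : w (1, j) ≠ 0) :
    ∃ f : FreeGroup (Fin n) × Fin n → ℂ, (∀ g i, app (X i) f g = 0) ∧ f ≠ 0 ∧
      ∃ K τ : ℝ, 0 ≤ K ∧ 0 ≤ τ ∧ τ < 1 ∧ ∀ p, ‖f p‖ ≤ K * τ ^ FreeGroup.norm p.1 := by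
  classical
  obtain ⟨R, hR⟩ : ∃ R : ℕ, ∀ i, ∀ p ∈ (X i).support, FreeGroup.norm p.1 ≤ R := by
    refine ⟨Finset.univ.sup fun i => (X i).support.sup fun p => FreeGroup.norm p.1, ?_⟩
    intro i p hp
    refine le_trans ?_ (Finset.le_sup (f := fun i => (X i).support.sup fun p =>
      FreeGroup.norm p.1) (Finset.mem_univ i))
    exact Finset.le_sup (f := fun p : FreeGroup (Fin n) × Fin n => FreeGroup.norm p.1) hp
  obtain ⟨f, hfs, hne, C, hC, hen⟩ := exists_minimal hR hw hwj
  have hsum := summable_sq f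
  set L := 2 * (2 * R + 1) with hL
  have hLpos : 0 < L := by omega
  set θ : ℝ := C / (1 + C) with hθ
  have hθ0 : 0 < θ := by positivity
  have hθ1 : θ < 1 := by
    rw [hθ, div_lt_one (by positivity)]
    linarith
  -- one step of the decay
  have hstep : ∀ v g : FreeGroup (Fin n), v ∈ T g → FreeGroup.norm v = FreeGroup.norm g + L →
      en f (T v) ≤ θ * en f (T g) := by
    intro v g hv hn
    obtain ⟨g', hg'n, hg'v⟩ := exists_ancestor v (FreeGroup.norm g + (2 * R + 1)) (by omega)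
    have hg'g : g' ∈ T g := by
      rw [mem_T] at *
      exact List.suffix_of_suffix_length_le hv hg'v
        (by change FreeGroup.norm g ≤ FreeGroup.norm g'; omega)
    have hg'1 : g' ≠ 1 := by
      rintro rfl
      rw [FreeGroup.norm_one] at hg'n
      omega
    have h1 := hen g' hg'1
    have hsub : {u | FreeGroup.norm (u * g'⁻¹) ≤ 2 * R} ⊆ T g := by
      intro u hu
      have := ball_subset_T (ρ := 2 * R) hg'g (by omega) hu
      rwa [inv_mul_cancel_right] at this
    have hdisj : Disjoint (T v) {u | FreeGroup.norm (u * g'⁻¹) ≤ 2 * R} := by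
      rw [Set.disjoint_left]
      intro u hu hu'
      have := ball_disjoint_T (v := v) (g' := g') (ρ := 2 * R) (by omega) hu'
      rw [inv_mul_cancel_right] at this
      exact this hu
    have h2 : en f (T v) + en f {u | FreeGroup.norm (u * g'⁻¹) ≤ 2 * R} ≤ en f (T g) := by
      rw [en_add hsum hdisj]
      exact en_mono hsum (Set.union_subset (T_subset hv) hsub)
    have h3 : en f (T v) ≤ en f (T g') := en_mono hsum (T_subset hg'v)
    have h4 : en f (T v) * (1 + C) ≤ C * en f (T g) := by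
      nlinarith
    rw [hθ, div_mul_eq_mul_div, le_div_iff₀ (by positivity)]
    exact h4
  -- the root of `θ`
  set τ : ℝ := θ ^ ((1 : ℝ) / L) with hτ
  have hτ0 : 0 < τ := Real.rpow_pos_of_pos hθ0 _
  have hτL : τ ^ L = θ := by
    rw [hτ, ← Real.rpow_natCast, ← Real.rpow_mul hθ0.le, one_div,
      inv_mul_cancel₀ (by exact_mod_cast hLpos.ne'), Real.rpow_one]
  have hτ1 : τ < 1 := Real.rpow_lt_one hθ0.le hθ1 (by positivity)
  have hdecay : ∀ (N : ℕ) (v : FreeGroup (Fin n)), FreeGroup.norm v = N →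
      en f (T v) ≤ (‖f‖ ^ 2 * (τ ^ L)⁻¹) * τ ^ N := by
    intro N
    induction N using Nat.strong_induction_on with
    | _ N ih =>
      intro v hv
      by_cases hN : N < L
      · have h1 : en f (T v) ≤ ‖f‖ ^ 2 := by
          rw [norm_sq, ← en_univ]
          exact en_mono hsum (Set.subset_univ _)
        refine h1.trans ?_
        have h2 : τ ^ L ≤ τ ^ N := pow_le_pow_of_le_one hτ0.le hτ1.le hN.le
        rw [mul_assoc]
        have h3 : 1 ≤ (τ ^ L)⁻¹ * τ ^ N := by
          rw [inv_mul_eq_div, le_div_iff₀ (by positivity), one_mul]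
          exact h2
        nlinarith [sq_nonneg ‖f‖]
      · push Not at hN
        obtain ⟨g, hg, hgv⟩ := exists_ancestor v (N - L) (by omega)
        have h1 := hstep v g hgv (by omega)
        have h2 := ih (N - L) (by omega) g hg
        calc en f (T v) ≤ θ * en f (T g) := h1
          _ ≤ θ * ((‖f‖ ^ 2 * (τ ^ L)⁻¹) * τ ^ (N - L)) := by gcongr
          _ = (‖f‖ ^ 2 * (τ ^ L)⁻¹) * (τ ^ L * τ ^ (N - L)) := by rw [← hτL]; ring
          _ = (‖f‖ ^ 2 * (τ ^ L)⁻¹) * τ ^ N := by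
            rw [← pow_add, Nat.add_sub_cancel' hN]
  set K₀ : ℝ := ‖f‖ ^ 2 * (τ ^ L)⁻¹ with hK₀
  have hK₀0 : 0 ≤ K₀ := by positivity
  refine ⟨f, hfs, ?_, Real.sqrt K₀, Real.sqrt τ, Real.sqrt_nonneg _, Real.sqrt_nonneg _, ?_, ?_⟩
  · intro h0
    exact hne (lp.ext h0)
  · rw [Real.sqrt_lt' one_pos, one_pow]
    exact hτ1
  · intro p
    have h1 : ‖f p‖ ^ 2 ≤ K₀ * τ ^ FreeGroup.norm p.1 :=
      (sq_le_en hsum (self_mem_T p.1)).trans (hdecay _ _ rfl)
    have h2 : K₀ * τ ^ FreeGroup.norm p.1 =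
        (Real.sqrt K₀ * Real.sqrt τ ^ FreeGroup.norm p.1) ^ 2 := by
      rw [mul_pow, Real.sq_sqrt hK₀0, ← pow_mul, mul_comm _ 2, pow_mul, Real.sq_sqrt hτ0.le]
    rw [h2] at h1
    exact (pow_le_pow_iff_left₀ (norm_nonneg _) (by positivity) two_ne_zero).1 h1

end Pool.Agent.H64.AugIdeal
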