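import Mathlib
import Pool.Agent.H64.AugIdeal.Decay

/-!
# Bounded functions annihilated by few finitely supported elements of the augmentation ideal
-/

namespace Pool.Agent.H64.AugIdeal

open Filter Topology

variable {n k : ℕ}

/-- The gradient of a function on the free group. -/
def grad (φ : FreeGroup (Fin n) → ℂ) (p : FreeGroup (Fin n) × Fin n) : ℂ :=
  φ (FreeGroup.of p.2 * p.1) - φ p.1

theorem app_add (X Y : (FreeGroup (Fin n) × Fin n) →₀ ℂ) (f : FreeGroup (Fin n) × Fin n → ℂ)
    (g : FreeGroup (Fin n)) : app (X + Y) f g = app X f g + app Y f g := by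
  classical
  unfold app
  exact Finsupp.sum_add_index' (fun _ => zero_mul _) (fun _ _ _ => add_mul _ _ _)

theorem app_zero (f : FreeGroup (Fin n) × Fin n → ℂ) (g : FreeGroup (Fin n)) :
    app 0 f g = 0 := by
  unfold app
  exact Finsupp.sum_zero_index

theorem app_smul (c : ℂ) (X : (FreeGroup (Fin n) × Fin n) →₀ ℂ)
    (f : FreeGroup (Fin n) × Fin n → ℂ) (g : FreeGroup (Fin n)) :
    app (c • X) f g = c * app X f g := by
  unfold app
  rw [Finsupp.sum_smul_index (fun _ => zero_mul _), Finsupp.mul_sum]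
  simp only [mul_assoc]

theorem app_single (p : FreeGroup (Fin n) × Fin n) (c : ℂ)
    (f : FreeGroup (Fin n) × Fin n → ℂ) (g : FreeGroup (Fin n)) :
    app (Finsupp.single p c) f g = c * f (p.1 * g, p.2) := by
  unfold app
  exact Finsupp.sum_single_index (zero_mul _)

theorem app_mapDomain (y : FreeGroup (Fin n)) (X : (FreeGroup (Fin n) × Fin n) →₀ ℂ)
    (f : FreeGroup (Fin n) × Fin n → ℂ) (g : FreeGroup (Fin n)) :
    app (X.mapDomain fun p => (p.1 * y, p.2)) f g = app X f (y * g) := by
  unfold app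
  rw [Finsupp.sum_mapDomain_index (fun _ => zero_mul _) (fun _ _ _ => add_mul _ _ _)]
  simp only [mul_assoc]

/-- A path from `g` to `h * g`, written in terms of the gradient. -/
theorem exists_path (h : FreeGroup (Fin n)) :
    ∃ X : (FreeGroup (Fin n) × Fin n) →₀ ℂ, ∀ (φ : FreeGroup (Fin n) → ℂ) (g : FreeGroup (Fin n)),
      app X (grad φ) g = φ (h * g) - φ g := by
  induction h using FreeGroup.induction_on with
  | C1 =>
    refine ⟨0, fun φ g => ?_⟩
    rw [app_zero, one_mul, sub_self]
  | of a =>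
    refine ⟨Finsupp.single (1, a) 1, fun φ g => ?_⟩
    rw [app_single, one_mul, one_mul]
    rfl
  | inv_of a _ =>
    refine ⟨Finsupp.single ((FreeGroup.of a)⁻¹, a) (-1), fun φ g => ?_⟩
    rw [app_single]
    change -1 * (φ (FreeGroup.of a * ((FreeGroup.of a)⁻¹ * g)) - φ ((FreeGroup.of a)⁻¹ * g)) = _
    rw [mul_inv_cancel_left]
    ring
  | mul x y hx hy =>
    obtain ⟨X, hX⟩ := hx
    obtain ⟨Y, hY⟩ := hy
    refine ⟨X.mapDomain (fun p => (p.1 * y, p.2)) + Y, fun φ g => ?_⟩
    rw [app_add, app_mapDomain, hX, hY, mul_assoc]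
    ring

/-- Fox calculus: a finitely supported element of the augmentation ideal acts on functions through
a finite-range operator applied to the gradient. -/
theorem exists_stencil (x : FreeGroup (Fin n) →₀ ℂ) (hx : (x.sum fun _ c => c) = 0) :
    ∃ X : (FreeGroup (Fin n) × Fin n) →₀ ℂ, ∀ (φ : FreeGroup (Fin n) → ℂ) (g : FreeGroup (Fin n)),
      app X (grad φ) g = x.sum fun h c => c * φ (h * g) := by
  classical
  choose P hP using exists_path (n := n)
  refine ⟨∑ h ∈ x.support, x h • P h, fun φ g => ?_⟩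
  have h1 : ∀ S : Finset (FreeGroup (Fin n)),
      app (∑ h ∈ S, x h • P h) (grad φ) g = ∑ h ∈ S, x h * (φ (h * g) - φ g) := by
    intro S
    induction S using Finset.induction_on with
    | empty => rw [Finset.sum_empty, Finset.sum_empty, app_zero]
    | insert a S ha ih =>
      rw [Finset.sum_insert ha, Finset.sum_insert ha, app_add, ih, app_smul, hP]
  rw [h1]
  unfold Finsupp.sum at hx ⊢
  simp only [mul_sub, Finset.sum_sub_distrib, ← Finset.sum_mul, hx, zero_mul, sub_zero]

/-- The shift by a generator, twisted by the values of `f`. -/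
def skew (f : FreeGroup (Fin n) × Fin n → ℂ) (j : Fin n) :
    Equiv.Perm (FreeGroup (Fin n) × ℂ) where
  toFun p := (FreeGroup.of j * p.1, p.2 + f (p.1, j))
  invFun p := ((FreeGroup.of j)⁻¹ * p.1, p.2 - f ((FreeGroup.of j)⁻¹ * p.1, j))
  left_inv p := by
    refine Prod.ext (inv_mul_cancel_left _ _) ?_
    change p.2 + f (p.1, j) - f ((FreeGroup.of j)⁻¹ * (FreeGroup.of j * p.1), j) = p.2
    rw [inv_mul_cancel_left, add_sub_cancel_right]
  right_inv p := by
    refine Prod.ext (mul_inv_cancel_left _ _) ?_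
    change p.2 - f ((FreeGroup.of j)⁻¹ * p.1, j) + f ((FreeGroup.of j)⁻¹ * p.1, j) = p.2
    rw [sub_add_cancel]

/-- The function with gradient `f`. -/
noncomputable def pot (f : FreeGroup (Fin n) × Fin n → ℂ) (g : FreeGroup (Fin n)) : ℂ :=
  (FreeGroup.lift (skew f) g (1, 0)).2

theorem lift_skew_fst (f : FreeGroup (Fin n) × Fin n → ℂ) (g : FreeGroup (Fin n))
    (p : FreeGroup (Fin n) × ℂ) : (FreeGroup.lift (skew f) g p).1 = g * p.1 := by
  induction g using FreeGroup.induction_on generalizing p with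
  | C1 => rw [_root_.map_one, one_mul]; rfl
  | of a => rw [FreeGroup.lift_apply_of]; rfl
  | inv_of a _ =>
    rw [_root_.map_inv, FreeGroup.lift_apply_of]
    rfl
  | mul x y hx hy => rw [_root_.map_mul, Equiv.Perm.mul_apply, hx, hy, mul_assoc]

theorem pot_of_mul (f : FreeGroup (Fin n) × Fin n → ℂ) (j : Fin n) (g : FreeGroup (Fin n)) :
    pot f (FreeGroup.of j * g) = pot f g + f (g, j) := by
  unfold pot
  rw [_root_.map_mul, Equiv.Perm.mul_apply, FreeGroup.lift_apply_of]
  have h := lift_skew_fst f g (1, 0)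
  rw [mul_one] at h
  change (FreeGroup.lift (skew f) g (1, 0)).2 + f ((FreeGroup.lift (skew f) g (1, 0)).1, j) = _
  rw [h]

theorem grad_pot (f : FreeGroup (Fin n) × Fin n → ℂ) : grad (pot f) = f := by
  funext p
  unfold grad
  rw [pot_of_mul]
  simp

theorem pot_bounded {f : FreeGroup (Fin n) × Fin n → ℂ} {K τ : ℝ} (hK : 0 ≤ K) (hτ : 0 ≤ τ)
    (hτ1 : τ < 1) (hf : ∀ p, ‖f p‖ ≤ K * τ ^ FreeGroup.norm p.1) (g : FreeGroup (Fin n)) :
    ‖pot f g‖ ≤ K / (1 - τ) := by
  have key : ∀ (N : ℕ) (g : FreeGroup (Fin n)), FreeGroup.norm g = N →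
      ‖pot f g‖ ≤ K * ∑ m ∈ Finset.range N, τ ^ m := by
    intro N
    induction N with
    | zero =>
      intro g hg
      have : g = 1 := FreeGroup.norm_eq_zero.1 hg
      subst this
      simp [pot]
    | succ N ih =>
      intro g hg
      have h0 : g ≠ 1 := by
        rintro rfl
        rw [FreeGroup.norm_one] at hg
        omega
      obtain ⟨x, h₁, e, hn⟩ := exists_letter_mul g h0
      have hN : FreeGroup.norm h₁ = N := by omega
      have ih' := ih h₁ hN
      rw [Finset.sum_range_succ, mul_add]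
      rcases x with ⟨a, b⟩
      cases b
      · have e1 : h₁ = FreeGroup.of a * g := by
          rw [e, mk_false, mul_inv_cancel_left]
        have h2 : pot f g = pot f h₁ - f (g, a) := by
          rw [e1, pot_of_mul]
          ring
        rw [h2]
        refine (norm_sub_le _ _).trans (add_le_add ih' ?_)
        refine (hf _).trans ?_
        have h3 : τ ^ FreeGroup.norm g ≤ τ ^ N := pow_le_pow_of_le_one hτ hτ1.le (by omega)
        exact mul_le_mul_of_nonneg_left h3 hK
      · have h2 : pot f g = pot f h₁ + f (h₁, a) := by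
          rw [e, mk_true, pot_of_mul]
        rw [h2]
        refine (norm_add_le _ _).trans (add_le_add ih' ?_)
        refine (hf _).trans ?_
        change K * τ ^ FreeGroup.norm h₁ ≤ _
        rw [hN]
  refine (key _ g rfl).trans ?_
  rw [div_eq_mul_inv, ← tsum_geometric_of_lt_one hτ hτ1]
  refine mul_le_mul_of_nonneg_left ?_ hK
  exact (summable_geometric_of_lt_one hτ hτ1).sum_le_tsum _ (fun _ _ => by positivity)

/-- If `k < n`, then `k` finitely supported elements of the augmentation ideal of `F_n` are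
annihilated, with all their right translates, by a bounded nonconstant function. -/
theorem exists_bounded (hk : k < n) (x : Fin k → (FreeGroup (Fin n) →₀ ℂ))
    (hx : ∀ i, ((x i).sum fun _ c => c) = 0) :
    ∃ φ : FreeGroup (Fin n) → ℂ, (∃ C : ℝ, ∀ g, ‖φ g‖ ≤ C) ∧ (∃ g h, φ g ≠ φ h) ∧
      ∀ i g, ((x i).sum fun h c => c * φ (h * g)) = 0 := by
  choose X hX using fun i => exists_stencil (x i) (hx i)
  obtain ⟨w, h1, h2, j, h3⟩ := exists_l2_solution hk X
  obtain ⟨f, hf1, hf2, K, τ, hK, hτ, hτ1, hf3⟩ :=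
    exists_decaying (X := X) (w := mkE w h2) (fun g i => h1 g i) (j := j) h3
  refine ⟨pot f, ⟨K / (1 - τ), pot_bounded hK hτ hτ1 hf3⟩, ?_, ?_⟩
  · by_contra hcon
    push Not at hcon
    apply hf2
    funext p
    rw [← grad_pot f]
    unfold grad
    rw [hcon (FreeGroup.of p.2 * p.1) p.1, sub_self]
    rfl
  · intro i g
    rw [← hX i (pot f) g, grad_pot]
    exact hf1 g i

end Pool.Agent.H64.AugIdeal
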