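import Mathlib
import Pool.Agent.H64.AugIdeal.Conv2

/-!
# The trace on the commutant of left translations

An operator on `ℓ²(F_n)` that commutes with left translations and is bounded below is onto (direct
finiteness of the group von Neumann algebra).
-/

namespace Pool.Agent.H64.AugIdeal

open Filter Topology

variable {n : ℕ}

/-- The point mass at the identity in `ℓ²`. -/
noncomputable def dl (n : ℕ) : H2 n := by
  classical
  exact lp.single 2 1 (1 : ℂ)

theorem inner_dl (f : H2 n) : inner ℂ (dl n) f = f 1 := by
  classical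
  unfold dl
  rw [lp.inner_single_left]
  simp

theorem norm_dl : ‖dl n‖ = 1 := by
  classical
  unfold dl
  rw [lp.norm_single (by norm_num)]
  simp

open Classical in
theorem dl_apply (u : FreeGroup (Fin n)) : dl n u = if u = 1 then 1 else 0 := by
  unfold dl
  by_cases h : u = 1
  · subst h
    rw [if_pos rfl]
    exact lp.single_apply_self _ _ _
  · rw [if_neg h]
    exact lp.single_apply_ne _ _ _ h

/-- Operators commuting with left translations. -/
def Equivariant (B : H2 n →L[ℂ] H2 n) : Prop := ∀ g f, B (lam g f) = lam g (B f)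

theorem inner_lam (g : FreeGroup (Fin n)) (f f' : H2 n) :
    inner ℂ (lam g f) f' = inner ℂ f (lam g⁻¹ f') := by
  rw [lp.inner_eq_tsum, lp.inner_eq_tsum,
    ← (Equiv.mulLeft g⁻¹).tsum_eq fun u => inner ℂ (f u) (lam g⁻¹ f' u)]
  refine tsum_congr fun u => ?_
  rw [lam_apply, lam_apply, Equiv.coe_mulLeft, inv_inv, mul_inv_cancel_left]

theorem Equivariant.adjoint {B : H2 n →L[ℂ] H2 n} (hB : Equivariant B) :
    Equivariant (ContinuousLinearMap.adjoint B) := by
  intro g f
  refine ext_inner_left ℂ fun v => ?_
  rw [ContinuousLinearMap.adjoint_inner_right]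
  have h1 : inner ℂ v (lam g (ContinuousLinearMap.adjoint B f)) =
      inner ℂ (lam g⁻¹ v) (ContinuousLinearMap.adjoint B f) := by
    rw [inner_lam, inv_inv]
  rw [h1, ContinuousLinearMap.adjoint_inner_right, hB, inner_lam, inv_inv]

/-- The values of an equivariant operator at the point mass and of its adjoint. -/
theorem adjoint_dl {B : H2 n →L[ℂ] H2 n} (hB : Equivariant B) (g : FreeGroup (Fin n)) :
    (ContinuousLinearMap.adjoint B (dl n)) g = starRingEnd ℂ (B (dl n) g⁻¹) := by
  have h1 : ∀ f : H2 n, f g = inner ℂ (lam g (dl n)) f := by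
    intro f
    rw [inner_lam, inner_dl, lam_apply, inv_inv, mul_one]
  rw [h1, ContinuousLinearMap.adjoint_inner_right, hB, ← inner_conj_symm, inner_dl, lam_apply,
    mul_one]

/-- The trace property. -/
theorem trace_comm {B C : H2 n →L[ℂ] H2 n} (hB : Equivariant B) (hC : Equivariant C) :
    (B (C (dl n))) 1 = (C (B (dl n))) 1 := by
  have h1 : ∀ {B C : H2 n →L[ℂ] H2 n}, Equivariant B →
      (B (C (dl n))) 1 = ∑' g, B (dl n) g⁻¹ * C (dl n) g := by
    intro B C hB
    rw [← inner_dl, ← ContinuousLinearMap.adjoint_inner_left, lp.inner_eq_tsum]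
    refine tsum_congr fun g => ?_
    rw [adjoint_dl hB, RCLike.inner_apply, RCLike.conj_conj, mul_comm]
  rw [h1 hB, h1 hC, ← (Equiv.inv (FreeGroup (Fin n))).tsum_eq]
  refine tsum_congr fun g => ?_
  rw [Equiv.inv_apply, inv_inv, mul_comm]

/-- An equivariant operator that is bounded below hits the point mass at the identity. -/
theorem exists_preimage_dl {B : H2 n →L[ℂ] H2 n} (hB : Equivariant B) {c : ℝ} (hc : 0 < c)
    (hbd : ∀ f, c * ‖f‖ ≤ ‖B f‖) : ∃ q, B q = dl n := by
  -- the range is closed
  have hanti : AntilipschitzWith (Real.toNNReal c⁻¹) B := by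
    refine ContinuousLinearMap.antilipschitz_of_bound B fun f => ?_
    rw [Real.coe_toNNReal _ (by positivity), ← div_le_iff₀' (by positivity), div_inv_eq_mul,
      mul_comm]
    exact hbd f
  have hclosed : IsClosed (LinearMap.range B.toLinearMap : Set (H2 n)) :=
    hanti.isClosed_range B.uniformContinuous
  set K : Submodule ℂ (H2 n) := LinearMap.range B.toLinearMap with hK
  have : CompleteSpace K := hclosed.completeSpace_coe
  set P : H2 n →L[ℂ] H2 n := K.starProjection with hP
  -- the projection is equivariant
  have hlamK : ∀ g, ∀ v ∈ K, lam g v ∈ K := by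
    rintro g _ ⟨f, rfl⟩
    exact ⟨lam g f, hB g f⟩
  have hPeq : Equivariant P := by
    intro g f
    apply Submodule.eq_starProjection_of_mem_of_inner_eq_zero
    · exact hlamK g _ (Submodule.starProjection_apply_mem _ _)
    · intro v hv
      have h1 : lam g f - lam g (P f) = lam g (f - P f) := by rw [map_sub]
      rw [h1, inner_lam]
      exact K.starProjection_inner_eq_zero f _ (hlamK _ _ hv)
  -- the inverse on the range
  have hinj : Function.Injective B := hanti.injective
  let e : H2 n ≃ₗ[ℂ] K := LinearEquiv.ofInjective B.toLinearMap hinj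
  have he : ∀ v : K, B (e.symm v) = v := by
    intro v
    have := e.apply_symm_apply v
    exact congrArg Subtype.val this
  let S : H2 n →L[ℂ] H2 n := LinearMap.mkContinuous
    { toFun := fun f => e.symm ⟨P f, Submodule.starProjection_apply_mem _ _⟩
      map_add' := by
        intro f f'
        rw [← map_add]
        congr 1
        apply Subtype.ext
        exact map_add P f f'
      map_smul' := by
        intro a f
        rw [RingHom.id_apply, ← map_smul]
        congr 1
        apply Subtype.ext
        exact map_smul P a f } c⁻¹ (by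
      intro f
      rw [inv_mul_eq_div, le_div_iff₀ hc, mul_comm]
      refine (hbd _).trans ?_
      change ‖B (e.symm ⟨P f, Submodule.starProjection_apply_mem _ _⟩)‖ ≤ ‖f‖
      rw [he]
      exact K.norm_starProjection_apply_le f)
  have hBS : ∀ f, B (S f) = P f := fun f => he _
  have hSB : ∀ f, S (B f) = f := by
    intro f
    apply hinj
    rw [hBS]
    exact Submodule.starProjection_eq_self_iff.2 ⟨f, rfl⟩
  have hSeq : Equivariant S := by
    intro g f
    apply hinj
    rw [hBS, hB, hBS, hPeq]
  have htr := trace_comm hB hSeq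
  rw [hBS, hSB] at htr
  have h1 : (dl n : H2 n) 1 = 1 := by
    rw [← inner_dl, inner_self_eq_norm_sq_to_K, norm_dl]
    simp
  rw [h1] at htr
  -- hence `P δ = δ`
  have h5 : inner ℂ (dl n - P (dl n)) (P (dl n)) = (0 : ℂ) :=
    K.starProjection_inner_eq_zero (dl n) (P (dl n)) (Submodule.starProjection_apply_mem _ _)
  have h3 : inner ℂ (dl n - P (dl n)) (dl n - P (dl n)) = (0 : ℂ) := by
    rw [inner_sub_right, h5, sub_zero, inner_sub_left, inner_dl, h1,
      ← inner_conj_symm (P (dl n)) (dl n), inner_dl, htr, map_one, sub_self]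
  have h4 : P (dl n) = dl n := (sub_eq_zero.1 (inner_self_eq_zero.1 h3)).symm
  exact ⟨S (dl n), by rw [hBS, h4]⟩

end Pool.Agent.H64.AugIdeal
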