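import Mathlib
import Pool.Agent.H64.AugIdeal.Child

/-!
# Young's inequality for the energies, and the lower bound for right convolution by a generator
-/

namespace Pool.Agent.H64.AugIdeal

open Filter Topology

variable {n : ℕ}

/-- Summation of a convolution of nonnegative functions. -/
theorem sum_conv_nonneg {c F : FreeGroup (Fin n) → ℝ} (hc : Summable c) (hF : Summable F)
    (hc0 : ∀ g, 0 ≤ c g) (hF0 : ∀ g, 0 ≤ F g) :
    (∀ u, Summable fun h => c h * F (u * h⁻¹)) ∧ Summable (fun u => ∑' h, c h * F (u * h⁻¹)) ∧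
      ∑' u, ∑' h, c h * F (u * h⁻¹) = (∑' h, c h) * ∑' g, F g := by
  let e : FreeGroup (Fin n) × FreeGroup (Fin n) ≃ FreeGroup (Fin n) × FreeGroup (Fin n) :=
    { toFun := fun p => (p.2, p.1 * p.2⁻¹)
      invFun := fun p => (p.2 * p.1, p.1)
      left_inv := fun p => Prod.ext (inv_mul_cancel_right _ _) rfl
      right_inv := fun p => Prod.ext rfl (mul_inv_cancel_right _ _) }
  have h1 : Summable fun p : FreeGroup (Fin n) × FreeGroup (Fin n) => c p.1 * F p.2 :=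
    hc.mul_of_nonneg hF hc0 hF0
  have h2 : Summable fun p : FreeGroup (Fin n) × FreeGroup (Fin n) =>
      c p.2 * F (p.1 * p.2⁻¹) := (e.summable_iff.2 h1).congr fun p => rfl
  refine ⟨fun u => h2.prod_factor u, h2.prod, ?_⟩
  rw [← h2.tsum_prod, hc.tsum_mul_tsum hF h1]
  exact e.tsum_eq (fun p => c p.1 * F p.2)

/-- Young's inequality. -/
theorem N_R_le {l : ℝ} (hl : 0 < l) (y : L1 n) {Y : ℝ} (hY : 1 ≤ Y) (hyY : ‖y‖ ≤ Y) (v : H2 n) :
    N l (R y v) ≤ Y * ‖y‖ * N l v := by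
  have hY0 : 0 < Y := by linarith
  set c : FreeGroup (Fin n) → ℝ := fun h => ‖y h‖ / Y with hc
  have hcs : Summable c := (L1.summable_norm y).div_const Y
  have hc0 : ∀ g, 0 ≤ c g := fun g => by positivity
  have hcsum : ∑' h, c h = ‖y‖ / Y := by
    rw [L1.norm_eq, hc, tsum_div_const]
  have hc1 : ∑' h, c h ≤ 1 := by
    rw [hcsum, div_le_one hY0]
    exact hyY
  obtain ⟨k1, k2, k3⟩ := sum_conv_nonneg hcs (summable_N hl v) hc0
    (fun g => phi_nonneg hl (norm_nonneg _))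
  have hpt : ∀ u, phi l ‖R y v u‖ ≤ Y ^ 2 * ∑' h, c h * phi l ‖v (u * h⁻¹)‖ := by
    intro u
    have s1 : Summable fun h => c h * ‖v (u * h⁻¹)‖ := by
      refine Summable.of_nonneg_of_le (fun h => by positivity) (fun h => ?_)
        (hcs.mul_right ‖v‖)
      exact mul_le_mul_of_nonneg_left (H2.norm_apply_le v _) (hc0 h)
    have s2 : Summable fun h => ‖y h * v (u * h⁻¹)‖ := by
      refine (s1.mul_left Y).congr fun h => ?_
      rw [norm_mul, hc]
      field_simp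
    have h1 : ‖R y v u‖ ≤ Y * ∑' h, c h * ‖v (u * h⁻¹)‖ := by
      rw [R_apply]
      refine (norm_tsum_le_tsum_norm s2).trans (le_of_eq ?_)
      rw [← tsum_mul_left]
      refine tsum_congr fun h => ?_
      rw [norm_mul, hc]
      field_simp
    have h0 : 0 ≤ ∑' h, c h * ‖v (u * h⁻¹)‖ := tsum_nonneg fun h => by positivity
    calc phi l ‖R y v u‖ ≤ phi l (Y * ∑' h, c h * ‖v (u * h⁻¹)‖) :=
          phi_mono hl (norm_nonneg _) h1
      _ ≤ Y ^ 2 * phi l (∑' h, c h * ‖v (u * h⁻¹)‖) := phi_mul_le hl hY h0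
      _ ≤ Y ^ 2 * ∑' h, c h * phi l ‖v (u * h⁻¹)‖ := by
        refine mul_le_mul_of_nonneg_left ?_ (by positivity)
        exact phi_tsum_le hl hc0 (fun _ => norm_nonneg _) hcs hc1 s1 (k1 u)
  have h2 : N l (R y v) ≤ ∑' u, Y ^ 2 * ∑' h, c h * phi l ‖v (u * h⁻¹)‖ :=
    (summable_N hl _).tsum_le_tsum hpt (k2.mul_left _)
  rw [tsum_mul_left, k3, hcsum] at h2
  refine h2.trans (le_of_eq ?_)
  unfold N
  field_simp

theorem N_add_le {l : ℝ} (hl : 0 < l) (f g : H2 n) : N l (f + g) ≤ 2 * N l f + 2 * N l g := by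
  have hpt : ∀ u, phi l ‖(f + g) u‖ ≤ 2 * phi l ‖f u‖ + 2 * phi l ‖g u‖ := by
    intro u
    have h1 : ‖(f + g) u‖ ≤ ‖f u‖ + ‖g u‖ := norm_add_le _ _
    exact (phi_mono hl (norm_nonneg _) h1).trans
      (phi_add_le hl (norm_nonneg _) (norm_nonneg _))
  have h2 := (summable_N hl (f + g)).tsum_le_tsum hpt
    (((summable_N hl f).mul_left 2).add ((summable_N hl g).mul_left 2))
  refine h2.trans (le_of_eq ?_)
  rw [((summable_N hl f).mul_left 2).tsum_add ((summable_N hl g).mul_left 2), tsum_mul_left,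
    tsum_mul_left]
  rfl

theorem rho_one : rho (n := n) 1 = ContinuousLinearMap.id ℂ (H2 n) := by
  ext f u
  rw [rho_apply, inv_one, mul_one]
  rfl

/-- The gradient is right convolution with `δ_a - δ_1`. -/
theorem gradH_eq (a : Fin n) (f : H2 n) :
    gradH a f = R (pt (FreeGroup.of a) - pt 1) f := by
  rw [R_sub, R_pt, R_pt, rho_one]
  rfl

/-- If elements `x * y_a`, `x * y_b` are close to `δ_a - δ_1`, `δ_b - δ_1`, then the energy of `f`
is controlled by that of `f * x`, uniformly in the parameter. -/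
theorem N_le_of_close {a b : Fin n} (hab : a ≠ b) {x ya yb : L1 n}
    (ha : ‖conv x ya - (pt (FreeGroup.of a) - pt 1)‖ ≤ 1 / 48)
    (hb : ‖conv x yb - (pt (FreeGroup.of b) - pt 1)‖ ≤ 1 / 48) :
    ∃ C : ℝ, 0 ≤ C ∧ ∀ l : ℝ, 0 < l → ∀ f : H2 n, N l f ≤ C * N l (R x f) := by
  have key : ∀ {a : Fin n} {ya : L1 n},
      ‖conv x ya - (pt (FreeGroup.of a) - pt 1)‖ ≤ 1 / 48 →
      ∀ l : ℝ, 0 < l → ∀ f : H2 n, N l (gradH a f) ≤
        2 * ((1 + ‖ya‖) * ‖ya‖) * N l (R x f) + 1 / 24 * N l f := by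
    intro a ya ha l hl f
    set r := conv x ya - (pt (FreeGroup.of a) - pt 1) with hr
    have h1 : gradH a f = R ya (R x f) + R (-r) f := by
      have h2 : pt (FreeGroup.of a) - pt 1 = conv x ya + -r := by
        rw [hr]
        abel
      rw [gradH_eq, h2, R_add, add_apply, R_conv]
    have h3 : N l (R (-r) f) ≤ 1 * ‖-r‖ * N l f :=
      N_R_le hl (-r) le_rfl (by rw [norm_neg]; linarith) f
    have h4 : N l (R ya (R x f)) ≤ (1 + ‖ya‖) * ‖ya‖ * N l (R x f) :=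
      N_R_le hl ya (by linarith [norm_nonneg ya]) (by linarith) _
    have h5 := N_add_le hl (R ya (R x f)) (R (-r) f)
    rw [← h1] at h5
    rw [norm_neg, one_mul] at h3
    have h6 : ‖r‖ * N l f ≤ 1 / 48 * N l f := mul_le_mul_of_nonneg_right ha (N_nonneg hl f)
    linarith
  refine ⟨24 * ((1 + ‖ya‖) * ‖ya‖ + (1 + ‖yb‖) * ‖yb‖), by positivity, fun l hl f => ?_⟩
  have h1 := N_le_grad hl hab f
  have h2 := key ha l hl f
  have h3 := key hb l hl f
  have h4 : 24 * ((1 + ‖ya‖) * ‖ya‖ + (1 + ‖yb‖) * ‖yb‖) * N l (R x f) =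
    2 * (6 * (2 * ((1 + ‖ya‖) * ‖ya‖) * N l (R x f) +
      2 * ((1 + ‖yb‖) * ‖yb‖) * N l (R x f))) := by ring
  rw [h4]
  linarith

end Pool.Agent.H64.AugIdeal
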