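import Mathlib
import Pool.Agent.H64.AugIdeal.Young
import Pool.Agent.H64.AugIdeal.Trace

/-!
# One element does not generate the augmentation ideal
-/

namespace Pool.Agent.H64.AugIdeal

open Filter Topology

variable {n : ℕ}

/-- `l · φ_l(t) ≥ t² - t³/l`. -/
theorem sq_sub_le {l t : ℝ} (hl : 0 < l) (ht : 0 ≤ t) : t ^ 2 - t ^ 3 / l ≤ l * phi l t := by
  have h : l * phi l t - (t ^ 2 - t ^ 3 / l) = t ^ 4 / (l * (l + t)) := by
    unfold phi
    have : 0 < l + t := by linarith
    field_simp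
    ring
  have h2 : 0 ≤ t ^ 4 / (l * (l + t)) := by positivity
  linarith

/-- `φ_l(t) ≥ t - l`. -/
theorem sub_le_phi {l t : ℝ} (hl : 0 < l) (ht : 0 ≤ t) : t - l ≤ phi l t := by
  have h : phi l t - (t - l) = l ^ 2 / (l + t) := by
    unfold phi
    have : 0 < l + t := by linarith
    field_simp
    ring
  have h2 : 0 ≤ l ^ 2 / (l + t) := by positivity
  linarith

/-- Letting `l → ∞`: right convolution by `x` is bounded below on `ℓ²`. -/
theorem bounded_below {C : ℝ} (hC : 0 ≤ C) {x : L1 n}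
    (h : ∀ l : ℝ, 0 < l → ∀ f : H2 n, N l f ≤ C * N l (R x f)) (f : H2 n) :
    ‖f‖ ^ 2 ≤ C * ‖R x f‖ ^ 2 := by
  rw [H2.norm_sq f]
  refine Summable.tsum_le_of_sum_le (H2.summable_sq f) fun S => ?_
  have hl : ∀ l : ℝ, 0 < l → ∑ g ∈ S, ‖f g‖ ^ 2 ≤ C * ‖R x f‖ ^ 2 + (∑ g ∈ S, ‖f g‖ ^ 3) / l := by
    intro l hl
    have h1 : ∑ g ∈ S, (‖f g‖ ^ 2 - ‖f g‖ ^ 3 / l) ≤ l * N l f := by
      calc ∑ g ∈ S, (‖f g‖ ^ 2 - ‖f g‖ ^ 3 / l) ≤ ∑ g ∈ S, l * phi l ‖f g‖ :=
            Finset.sum_le_sum fun g _ => sq_sub_le hl (norm_nonneg _)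
        _ = l * ∑ g ∈ S, phi l ‖f g‖ := by rw [Finset.mul_sum]
        _ ≤ l * N l f := mul_le_mul_of_nonneg_left
            ((summable_N hl f).sum_le_tsum S fun _ _ => phi_nonneg hl (norm_nonneg _)) hl.le
    have h2 : l * N l (R x f) ≤ ‖R x f‖ ^ 2 := by
      rw [H2.norm_sq]
      unfold N
      rw [← tsum_mul_left]
      refine ((summable_N hl _).mul_left l).tsum_le_tsum (fun g => ?_) (H2.summable_sq _)
      have := phi_le_sq hl (norm_nonneg (R x f g))
      calc l * phi l ‖R x f g‖ ≤ l * (‖R x f g‖ ^ 2 / l) := mul_le_mul_of_nonneg_left this hl.le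
        _ = ‖R x f g‖ ^ 2 := by field_simp
    have h3 := mul_le_mul_of_nonneg_left (h l hl f) hl.le
    have h4 : l * (C * N l (R x f)) = C * (l * N l (R x f)) := by ring
    have h5 := mul_le_mul_of_nonneg_left h2 hC
    rw [Finset.sum_sub_distrib, ← Finset.sum_div] at h1
    linarith
  have h6 : Tendsto (fun l : ℝ => C * ‖R x f‖ ^ 2 + (∑ g ∈ S, ‖f g‖ ^ 3) / l) atTop
      (𝓝 (C * ‖R x f‖ ^ 2 + 0)) :=
    tendsto_const_nhds.add (tendsto_const_nhds.div_atTop tendsto_id)
  rw [add_zero] at h6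
  refine ge_of_tendsto h6 ?_
  filter_upwards [eventually_gt_atTop 0] with l hl'
  exact hl l hl'

/-- Letting `l → 0`: a preimage of the point mass is absolutely summable. -/
theorem summable_of_preimage {C : ℝ} (hC : 0 ≤ C) {x : L1 n}
    (h : ∀ l : ℝ, 0 < l → ∀ f : H2 n, N l f ≤ C * N l (R x f)) {q : H2 n} (hq : R x q = dl n) :
    Summable fun g => ‖q g‖ := by
  classical
  have hdl : ∀ l : ℝ, 0 < l → N l (dl n) ≤ 1 := by
    intro l hl
    unfold N
    rw [tsum_eq_single (1 : FreeGroup (Fin n))]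
    · rw [dl_apply, if_pos rfl, norm_one]
      unfold phi
      rw [one_pow, div_le_one (by linarith)]
      linarith
    · intro g hg
      rw [dl_apply, if_neg hg, norm_zero, phi_zero]
  refine summable_of_sum_le (c := C) (fun _ => norm_nonneg _) fun S => ?_
  refine le_of_forall_pos_le_add fun ε hε => ?_
  set l : ℝ := ε / (S.card + 1) with hl
  have hl0 : 0 < l := by positivity
  have h1 : ∑ g ∈ S, (‖q g‖ - l) ≤ C := by
    calc ∑ g ∈ S, (‖q g‖ - l) ≤ ∑ g ∈ S, phi l ‖q g‖ :=
          Finset.sum_le_sum fun g _ => sub_le_phi hl0 (norm_nonneg _)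
      _ ≤ N l q := (summable_N hl0 q).sum_le_tsum S fun _ _ => phi_nonneg hl0 (norm_nonneg _)
      _ ≤ C * N l (R x q) := h l hl0 q
      _ ≤ C * 1 := by
        rw [hq]
        exact mul_le_mul_of_nonneg_left (hdl l hl0) hC
      _ = C := mul_one C
  rw [Finset.sum_sub_distrib, Finset.sum_const, nsmul_eq_mul] at h1
  have h2 : (S.card : ℝ) * l ≤ ε := by
    rw [hl, mul_div_assoc', div_le_iff₀ (by positivity)]
    nlinarith
  linarith

/-- Right convolution in terms of the usual formula. -/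
theorem R_apply' (b : L1 n) (f : H2 n) (u : FreeGroup (Fin n)) :
    R b f u = ∑' v, f v * b (v⁻¹ * u) := by
  rw [R_apply, ← ((Equiv.inv (FreeGroup (Fin n))).trans (Equiv.mulRight u)).tsum_eq]
  refine tsum_congr fun v => ?_
  change b (v⁻¹ * u) * f (u * (v⁻¹ * u)⁻¹) = _
  rw [mul_inv_rev, inv_inv, mul_inv_cancel_left, mul_comm]

/-- The main contradiction: no element of the augmentation ideal has right multiples close to
both `δ_a - δ_1` and `δ_b - δ_1`. -/
theorem not_close {a b : Fin n} (hab : a ≠ b) {x ya yb : L1 n} (hx : x ∈ I0 n)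
    (ha : ‖conv x ya - (pt (FreeGroup.of a) - pt 1)‖ ≤ 1 / 48)
    (hb : ‖conv x yb - (pt (FreeGroup.of b) - pt 1)‖ ≤ 1 / 48) : False := by
  classical
  obtain ⟨C, hC, h⟩ := N_le_of_close hab ha hb
  -- bounded below
  have hbd : ∀ f : H2 n, (Real.sqrt (C + 1))⁻¹ * ‖f‖ ≤ ‖R x f‖ := by
    intro f
    have h1 := bounded_below hC h f
    have h2 : 0 < Real.sqrt (C + 1) := Real.sqrt_pos.2 (by linarith)
    rw [inv_mul_le_iff₀ h2]
    have h3 : ‖f‖ ^ 2 ≤ (Real.sqrt (C + 1) * ‖R x f‖) ^ 2 := by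
      rw [mul_pow, Real.sq_sqrt (by linarith)]
      nlinarith [sq_nonneg ‖R x f‖]
    exact (pow_le_pow_iff_left₀ (norm_nonneg _) (by positivity) two_ne_zero).1 h3
  obtain ⟨q, hq⟩ := exists_preimage_dl (B := R x) (fun g f => R_lam x g f)
    (inv_pos.2 (Real.sqrt_pos.2 (by linarith))) hbd
  have hqs := summable_of_preimage hC h hq
  -- sums
  have h1 := tsum_conv_mul (φ := fun _ : FreeGroup (Fin n) => (1 : ℂ)) (C := 1)
    (fun _ => by simp) hqs (L1.summable_norm x)
  have h2 : ∀ u, ∑' v, q v * x (v⁻¹ * u) = dl n u := by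
    intro u
    rw [← R_apply', hq]
  simp only [h2, mul_one] at h1
  rw [tsum_mul_right, mem_I0.1 hx, zero_mul, tsum_eq_single (1 : FreeGroup (Fin n))] at h1
  · rw [dl_apply, if_pos rfl] at h1
    exact one_ne_zero h1
  · intro g hg
    rw [dl_apply, if_neg hg]

/-- The function `R z δ` is `z`. -/
theorem R_dl (z : L1 n) (u : FreeGroup (Fin n)) : R z (dl n) u = z u := by
  classical
  rw [R_apply', tsum_eq_single (1 : FreeGroup (Fin n))]
  · rw [dl_apply, if_pos rfl, one_mul, inv_one, one_mul]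
  · intro g hg
    rw [dl_apply, if_neg hg, zero_mul]

theorem L1.ext_R {z w : L1 n} (h : R z (dl n) = R w (dl n)) : z = w :=
  L1.ext fun u => by rw [← R_dl z u, ← R_dl w u, h]

theorem conv_assoc (x y z : L1 n) : conv (conv x y) z = conv x (conv y z) := by
  apply L1.ext_R
  rw [R_conv, R_conv, R_conv, R_conv]

theorem conv_add (x y z : L1 n) : conv x (y + z) = conv x y + conv x z := by
  apply L1.ext_R
  rw [R_conv, R_add, R_add, add_apply, add_apply, R_conv, R_conv]

theorem add_conv (x y z : L1 n) : conv (x + y) z = conv x z + conv y z := by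
  apply L1.ext_R
  rw [R_conv, R_add, R_add, add_apply, add_apply, map_add, R_conv, R_conv]

theorem R_smul (c : ℂ) (b : L1 n) : R (c • b) = c • R b := by
  unfold R
  rw [← (summable_rho b).tsum_const_smul]
  refine tsum_congr fun h => ?_
  rw [L1.smul_apply, mul_smul]

theorem conv_smul (c : ℂ) (x y : L1 n) : conv x (c • y) = c • conv x y := by
  apply L1.ext_R
  rw [R_conv, R_smul, R_smul, smul_apply, smul_apply, R_conv]

theorem smul_conv (c : ℂ) (x y : L1 n) : conv (c • x) y = c • conv x y := by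
  apply L1.ext_R
  rw [R_conv, R_smul, R_smul, smul_apply, smul_apply, map_smul, R_conv]

theorem norm_conv_le (f g : L1 n) : ‖conv f g‖ ≤ ‖g‖ * ‖f‖ := by
  obtain ⟨k1, k2, k3⟩ := sum_conv_nonneg (L1.summable_norm g) (L1.summable_norm f)
    (fun _ => norm_nonneg _) (fun _ => norm_nonneg _)
  rw [L1.norm_eq, L1.norm_eq g, L1.norm_eq f, ← k3]
  refine (L1.summable_norm _).tsum_le_tsum (fun u => ?_) k2
  have h1 : conv f g u = ∑' h, g h * f (u * h⁻¹) := by
    rw [conv_apply, ← ((Equiv.inv (FreeGroup (Fin n))).trans (Equiv.mulLeft u)).tsum_eq]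
    refine tsum_congr fun v => ?_
    change f (u * v⁻¹) * g ((u * v⁻¹)⁻¹ * u) = _
    rw [mul_inv_rev, inv_inv, inv_mul_cancel_right, mul_comm]
  have h2 : Summable fun h => ‖g h * f (u * h⁻¹)‖ := (k1 u).congr fun h => (norm_mul _ _).symm
  rw [h1]
  refine (norm_tsum_le_tsum_norm h2).trans (le_of_eq ?_)
  exact tsum_congr fun h => norm_mul _ _

/-- Right multiplication by `g` as a continuous linear map. -/
noncomputable def convR (g : L1 n) : L1 n →L[ℂ] L1 n :=
  LinearMap.mkContinuous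
    { toFun := fun f => conv f g
      map_add' := fun f f' => add_conv f f' g
      map_smul' := fun c f => smul_conv c f g } ‖g‖ (fun f => norm_conv_le f g)

/-- Left multiplication by `x` as a linear map. -/
noncomputable def convL (x : L1 n) : L1 n →ₗ[ℂ] L1 n where
  toFun y := conv x y
  map_add' y z := conv_add x y z
  map_smul' c y := conv_smul c x y

theorem pt_one_conv (x : L1 n) : conv x (pt 1) = x := by
  apply L1.ext_R
  rw [R_conv, R_pt, rho_one]
  rfl

/-- The closure of `x ℓ¹` is a closed right ideal if `x` lies in the augmentation ideal. -/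
theorem isClosedRightIdeal_closure {x : L1 n} (hx : x ∈ I0 n) :
    IsClosedRightIdeal (LinearMap.range (convL x)).topologicalClosure where
  le := by
    refine Submodule.topologicalClosure_minimal _ ?_ isClosed_I0
    rintro _ ⟨y, rfl⟩
    exact conv_mem_I0 hx y
  isClosed := Submodule.isClosed_topologicalClosure _
  conv_mem f hf g _ := by
    have h1 : Set.MapsTo (convR g) (LinearMap.range (convL x) : Set (L1 n))
        (LinearMap.range (convL x) : Set (L1 n)) := by
      rintro _ ⟨y, rfl⟩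
      exact ⟨conv y g, (conv_assoc x y g).symm⟩
    have h2 := h1.closure (convR g).continuous
    exact h2 hf

theorem generated_le_closure {x : Fin 1 → L1 n} (hx : x 0 ∈ I0 n) :
    generated x ≤ (LinearMap.range (convL (x 0))).topologicalClosure := by
  apply sInf_le
  refine ⟨isClosedRightIdeal_closure hx, fun i => ?_⟩
  have : i = 0 := Subsingleton.elim _ _
  subst this
  exact Submodule.le_topologicalClosure _ ⟨pt 1, pt_one_conv _⟩

/-- One element does not generate the augmentation ideal of `ℓ¹(F_n)`, `n ≥ 2`. -/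
theorem single_ne (hn : 2 ≤ n) (x : Fin 1 → L1 n) (hx : x 0 ∈ I0 n) : generated x ≠ I0 n := by
  intro heq
  have h1 := generated_le_closure hx
  rw [heq] at h1
  have h2 : ∀ a : Fin n, ∃ y : L1 n, ‖conv (x 0) y - (pt (FreeGroup.of a) - pt 1)‖ ≤ 1 / 48 := by
    intro a
    have h3 : pt (FreeGroup.of a) - pt 1 ∈
        closure (LinearMap.range (convL (x 0)) : Set (L1 n)) := h1 (pt_sub_mem _ _)
    obtain ⟨_, ⟨y, rfl⟩, hy⟩ := Metric.mem_closure_iff.1 h3 (1 / 48) (by norm_num)
    refine ⟨y, ?_⟩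
    rw [dist_comm, dist_eq_norm] at hy
    exact hy.le
  obtain ⟨ya, ha⟩ := h2 ⟨0, by omega⟩
  obtain ⟨yb, hb⟩ := h2 ⟨1, by omega⟩
  exact not_close (a := ⟨0, by omega⟩) (b := ⟨1, by omega⟩) (by simp) hx ha hb

end Pool.Agent.H64.AugIdeal
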